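import Pool.Agent.X321.UP.Ex

set_option autoImplicit false

/-!
# Injectivity of the maps of Goncharov's complexes
-/

namespace Pool.Agent.X321.UP

open GonP
open Pool.Agent.TH358.GP (Induced InducedL InducedB onUnits onUnits_cl exists_T exists_S
  lext_P isLin bG bG_mk bG_gen b_mk toQuo_eq map_comp_apply)
open H39Gon (rmM rmU)

variable {F F' : Type} [Field F] [Field F']

/-- `φ : F → F'` induces, for all `n ≥ 2`, injective maps of all terms of `Γ(F,n) ⊗ ℚ` to those of
`Γ(F',n) ⊗ ℚ`, which commute with the differentials, and injective maps of all cohomology groups: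
an element of a term of `Γ(F,n) ⊗ ℚ` whose image is a boundary is a boundary. -/
def CohInjective (φ : F →+* F') : Prop :=
  ∃ (T : ∀ m j : ℕ, TQ F (m + 2) j → TQ F' (m + 2) j) (S : ∀ j : ℕ, LQ F j → LQ F' j),
    (∀ m j, Induced φ (m + 2) j (T m j) ∧ Function.Injective (T m j)) ∧
    (∀ j, InducedL φ j (S j) ∧ Function.Injective (S j)) ∧
    ∀ (D : Differentials F) (D' : Differentials F'),
      (∀ m j u, T m (j + 1) (D.d m j u) = D'.d m j (T (m + 1) j u)) ∧
      (∀ j u, S (j + 2) (D.e j u) = D'.e j (T 0 j u)) ∧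
      (∀ m j u v, D'.d m j v = T m (j + 1) u → ∃ w, D.d m j w = u) ∧
      ∀ j u v, D'.e j v = S (j + 2) u → ∃ w, D.e j w = u

/-- transport of differentials -/
noncomputable def toD (D : Differentials F) : H39Gon.Differentials F where
  d m j := (eT F m (j + 1)).toLinearMap ∘ₗ ((D.d_spec m j).1.mk' _) ∘ₗ
    (eT F (m + 1) j).symm.toLinearMap
  d_inf m j y := by
    change eT F m (j + 1) (D.d m j ((eT F (m + 1) j).symm (H39Gon.tq F (m + 3) j none y))) = 0
    rw [show (eT F (m + 1) j).symm (H39Gon.tq F (m + 3) j none y) = tq (m + 3) j none y from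
      eT_symm_tq (m + 1) j none y, (D.d_spec m j).2.1, map_zero]
  d_zero m j y := by
    change eT F m (j + 1) (D.d m j ((eT F (m + 1) j).symm (H39Gon.tq F (m + 3) j (some 0) y))) = 0
    rw [show (eT F (m + 1) j).symm (H39Gon.tq F (m + 3) j (some 0) y) = tq (m + 3) j (some 0) y from
      eT_symm_tq (m + 1) j (some 0) y, (D.d_spec m j).2.2.1, map_zero]
  d_some m j x y hx := by
    change eT F m (j + 1) (D.d m j ((eT F (m + 1) j).symm (H39Gon.tq F (m + 3) j (some x) y))) = _
    rw [show (eT F (m + 1) j).symm (H39Gon.tq F (m + 3) j (some x) y) = tq (m + 3) j (some x) y from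
      eT_symm_tq (m + 1) j (some x) y, (D.d_spec m j).2.2.2 x y hx]
    exact eT_tq m (j + 1) _ _
  e j := (eLQ F (j + 2)).toLinearMap ∘ₗ ((D.e_spec j).1.mk' _) ∘ₗ
    (eT F 0 j).symm.toLinearMap
  e_inf j y := by
    change eLQ F (j + 2) (D.e j ((eT F 0 j).symm (H39Gon.tq F 2 j none y))) = 0
    rw [show (eT F 0 j).symm (H39Gon.tq F 2 j none y) = tq 2 j none y from
      eT_symm_tq 0 j none y, (D.e_spec j).2.1, map_zero]
  e_zero j y := by
    change eLQ F (j + 2) (D.e j ((eT F 0 j).symm (H39Gon.tq F 2 j (some 0) y))) = 0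
    rw [show (eT F 0 j).symm (H39Gon.tq F 2 j (some 0) y) = tq 2 j (some 0) y from
      eT_symm_tq 0 j (some 0) y, (D.e_spec j).2.2.1, map_zero]
  e_one j y := by
    change eLQ F (j + 2) (D.e j ((eT F 0 j).symm (H39Gon.tq F 2 j (some 1) y))) = 0
    rw [show (eT F 0 j).symm (H39Gon.tq F 2 j (some 1) y) = tq 2 j (some 1) y from
      eT_symm_tq 0 j (some 1) y, (D.e_spec j).2.2.2.1, map_zero]
  e_some j x y hx hx1 := by
    change eLQ F (j + 2) (D.e j ((eT F 0 j).symm (H39Gon.tq F 2 j (some x) y))) = _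
    rw [show (eT F 0 j).symm (H39Gon.tq F 2 j (some x) y) = tq 2 j (some x) y from
      eT_symm_tq 0 j (some x) y, (D.e_spec j).2.2.2.2 x y hx hx1]
    exact eLQ_lq (j + 2) _

theorem toD_d (D : Differentials F) (m j : ℕ) (u : TQ F (m + 3) j) :
    (toD D).d m j (eT F (m + 1) j u) = eT F m (j + 1) (D.d m j u) := by
  change eT F m (j + 1) (D.d m j ((eT F (m + 1) j).symm (eT F (m + 1) j u))) = _
  rw [LinearEquiv.symm_apply_apply]

theorem toD_e (D : Differentials F) (j : ℕ) (u : TQ F 2 j) :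
    (toD D).e j (eT F 0 j u) = eLQ F (j + 2) (D.e j u) := by
  change eLQ F (j + 2) (D.e j ((eT F 0 j).symm (eT F 0 j u))) = _
  rw [LinearEquiv.symm_apply_apply]

/-- the induced maps commute with the differentials -/
theorem comm_d (φ : F →+* F') (T : ∀ m j : ℕ, TQ F (m + 2) j →ₗ[ℚ] TQ F' (m + 2) j)
    (hT : ∀ m j (x : P1 F) (y : Fin j → UV F),
      T m j (tq (m + 2) j x y) = tq (m + 2) j (x.map φ) (fun i => onUnits φ (y i)))
    (D : Differentials F) (D' : Differentials F') (m j : ℕ) (u : TQ F (m + 3) j) :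
    T m (j + 1) (D.d m j u) = D'.d m j (T (m + 1) j u) := by
  have hD := D.d_spec m j
  have hD' := D'.d_spec m j
  have hlin1 : IsLinearMap ℚ (fun u => T m (j + 1) (D.d m j u)) :=
    isLin ((T m (j + 1)) ∘ₗ (hD.1.mk' _))
  have hlin2 : IsLinearMap ℚ (fun u => D'.d m j (T (m + 1) j u)) :=
    isLin ((hD'.1.mk' _) ∘ₗ (T (m + 1) j))
  have h := text_P (m + 1) j _ _ hlin1 hlin2 (fun x y => ?_)
  · exact congrFun h u
  · skip
    rw [hT]
    cases x with
    | none =>
      rw [show D.d m j (tq (m + 1 + 2) j none y) = 0 from hD.2.1 y, map_zero]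
      exact (hD'.2.1 _).symm
    | some x =>
      by_cases hx : x = 0
      · subst hx
        rw [show D.d m j (tq (m + 1 + 2) j (some 0) y) = 0 from hD.2.2.1 y, map_zero,
          Option.map_some, map_zero]
        exact (hD'.2.2.1 _).symm
      · rw [show D.d m j (tq (m + 1 + 2) j (some x) y) = _ from hD.2.2.2 x y hx, hT]
        have hx' : φ x ≠ 0 := (map_ne_zero φ).2 hx
        rw [show D'.d m j (tq (m + 1 + 2) j (Option.map φ (some x)) fun i => onUnits φ (y i)) = _
          from hD'.2.2.2 (φ x) _ hx']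
        congr 1
        funext i
        refine Fin.cases ?_ (fun i => ?_) i
        · rw [Fin.cons_zero, Fin.cons_zero]
          exact onUnits_cl φ x
        · rw [Fin.cons_succ, Fin.cons_succ]

theorem comm_e (φ : F →+* F') (T : ∀ m j : ℕ, TQ F (m + 2) j →ₗ[ℚ] TQ F' (m + 2) j)
    (hT : ∀ m j (x : P1 F) (y : Fin j → UV F),
      T m j (tq (m + 2) j x y) = tq (m + 2) j (x.map φ) (fun i => onUnits φ (y i)))
    (S : ∀ j : ℕ, LQ F j →ₗ[ℚ] LQ F' j)
    (hS : ∀ j (y : Fin j → UV F), S j (lq j y) = lq j (fun i => onUnits φ (y i)))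
    (D : Differentials F) (D' : Differentials F') (j : ℕ) (u : TQ F 2 j) :
    S (j + 2) (D.e j u) = D'.e j (T 0 j u) := by
  have hD := D.e_spec j
  have hD' := D'.e_spec j
  have hlin1 : IsLinearMap ℚ (fun u => S (j + 2) (D.e j u)) :=
    isLin ((S (j + 2)) ∘ₗ (hD.1.mk' _))
  have hlin2 : IsLinearMap ℚ (fun u => D'.e j (T 0 j u)) :=
    isLin ((hD'.1.mk' _) ∘ₗ (T 0 j))
  have h := text_P 0 j _ _ hlin1 hlin2 (fun x y => ?_)
  · exact congrFun h u
  · skip
    rw [hT]
    cases x with
    | none =>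
      rw [show D.e j (tq (0 + 2) j none y) = 0 from hD.2.1 y, map_zero]
      exact (hD'.2.1 _).symm
    | some x =>
      by_cases hx : x = 0
      · subst hx
        rw [show D.e j (tq (0 + 2) j (some 0) y) = 0 from hD.2.2.1 y, map_zero,
          Option.map_some, map_zero]
        exact (hD'.2.2.1 _).symm
      · by_cases hx1 : x = 1
        · subst hx1
          rw [show D.e j (tq (0 + 2) j (some 1) y) = 0 from hD.2.2.2.1 y, map_zero,
            Option.map_some, map_one]
          exact (hD'.2.2.2.1 _).symm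
        · rw [show D.e j (tq (0 + 2) j (some x) y) = _ from hD.2.2.2.2 x y hx hx1, hS]
          have hx' : φ x ≠ 0 := (map_ne_zero φ).2 hx
          have hx1' : φ x ≠ 1 := fun h => hx1 (φ.injective (by rw [h, map_one]))
          rw [show D'.e j (tq (0 + 2) j (Option.map φ (some x)) fun i => onUnits φ (y i)) = _
            from hD'.2.2.2.2 (φ x) _ hx' hx1']
          congr 1
          funext i
          refine Fin.cases ?_ (fun i => Fin.cases ?_ (fun i => ?_) i) i
          · rw [Fin.cons_zero, Fin.cons_zero, onUnits_cl, map_sub, map_one]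
          · rw [Fin.cons_succ, Fin.cons_succ, Fin.cons_zero, Fin.cons_zero]
            exact onUnits_cl φ x
          · rw [Fin.cons_succ, Fin.cons_succ, Fin.cons_succ, Fin.cons_succ]

section main

variable [Algebra F F'] (h : ExClosed F F')

include h

theorem cohInjective : CohInjective (algebraMap F F') := by
  obtain ⟨I, U, e, he⟩ := exists_embedding h
  set φ : F →+* F' := algebraMap F F' with hφ
  choose T hT using fun m j => exists_T φ m j
  choose S hS using fun j => exists_S φ j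
  -- the corresponding maps for the other definitions
  let T0 : ∀ m j, H39Gon.TQ F (m + 2) j →ₗ[ℚ] H39Gon.TQ F' (m + 2) j := fun m j =>
    (eT F' m j).toLinearMap ∘ₗ (T m j) ∘ₗ (eT F m j).symm.toLinearMap
  have hT0 : ∀ m j (x : H39Gon.P1 F) (y : Fin j → H39Gon.UV F),
      T0 m j (H39Gon.tq F (m + 2) j x y) =
        H39Gon.tq F' (m + 2) j (x.map φ) (fun i => rmU φ (y i)) := by
    intro m j x y
    change eT F' m j (T m j ((eT F m j).symm (H39Gon.tq F (m + 2) j x y))) = _
    rw [eT_symm_tq, hT, eT_tq]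
    rfl
  have hT1 : ∀ m j u, T0 m j (eT F m j u) = eT F' m j (T m j u) := by
    intro m j u
    change eT F' m j (T m j ((eT F m j).symm (eT F m j u))) = _
    rw [LinearEquiv.symm_apply_apply]
  let S0 : ∀ j, H39Gon.LQ F j →ₗ[ℚ] H39Gon.LQ F' j := fun j =>
    (eLQ F' j).toLinearMap ∘ₗ (S j) ∘ₗ (eLQ F j).symm.toLinearMap
  have hS0 : ∀ j (y : Fin j → H39Gon.UV F),
      S0 j (H39Gon.lq F j y) = H39Gon.lq F' j (fun i => rmU φ (y i)) := by
    intro j y
    change eLQ F' j (S j ((eLQ F j).symm (H39Gon.lq F j y))) = _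
    rw [eLQ_symm_lq, hS, eLQ_lq]
    rfl
  have hS1 : ∀ j u, S0 j (eLQ F j u) = eLQ F' j (S j u) := by
    intro j u
    change eLQ F' j (S j ((eLQ F j).symm (eLQ F j u))) = _
    rw [LinearEquiv.symm_apply_apply]
  refine ⟨fun m j => T m j, fun j => S j, fun m j => ⟨⟨isLin _, hT m j⟩, fun u v huv => ?_⟩,
    fun j => ⟨⟨isLin _, hS j⟩, fun u v huv => ?_⟩, fun D D' =>
    ⟨fun m j u => comm_d φ T hT D D' m j u, fun j u => comm_e φ T hT S hS D D' j u,
      fun m j u v huv => ?_, fun j u v huv => ?_⟩⟩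
  · apply (eT F m j).injective
    apply T_inj U φ e he m j (T0 m j) (hT0 m j)
    rw [hT1, hT1]
    exact congrArg (eT F' m j) huv
  · apply (eLQ F j).injective
    apply L_inj U φ e he j (S0 j) (hS0 j)
    rw [hS1, hS1]
    exact congrArg (eLQ F' j) huv
  · obtain ⟨w, hw⟩ := coh_d U φ e he (toD D) (toD D') m j (T0 m (j + 1)) (hT0 m (j + 1))
      (eT F m (j + 1) u) (eT F' (m + 1) j v) (by rw [toD_d, hT1]; exact congrArg _ huv)
    refine ⟨(eT F (m + 1) j).symm w, (eT F m (j + 1)).injective ?_⟩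
    rw [← toD_d, LinearEquiv.apply_symm_apply]
    exact hw
  · obtain ⟨w, hw⟩ := coh_e U φ e he (toD D) (toD D') j (S0 (j + 2)) (hS0 (j + 2))
      (eLQ F (j + 2) u) (eT F' 0 j v) (by rw [toD_e, hS1]; exact congrArg _ huv)
    refine ⟨(eT F 0 j).symm w, (eLQ F (j + 2)).injective ?_⟩
    rw [← toD_e, LinearEquiv.apply_symm_apply]
    exact hw

theorem B_inj (n : ℕ) (hn : 2 ≤ n) : ∃ T : B n F → B n F', InducedB (algebraMap F F') n T ∧
    Function.Injective T := by
  obtain ⟨I, U, e, he⟩ := exists_embedding h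
  obtain ⟨m, rfl⟩ := Nat.exists_eq_add_of_le' hn
  refine ⟨bG (algebraMap F F') (m + 2) (by omega),
    ⟨fun b c => map_add _ b c, fun x => bG_gen _ _ _ x⟩, ?_⟩
  rw [injective_iff_map_eq_zero]
  intro b hb
  obtain ⟨a, rfl⟩ := b_mk b
  rw [bG_mk] at hb
  have h1 : rmM (algebraMap F F') a ∈ R (m + 2) F' :=
    (QuotientAddGroup.eq_zero_iff (N := R (m + 2) F') _).1 hb
  rw [R_eq] at h1
  have h2 : a ∈ R (m + 2) F := by
    rw [R_eq]
    exact R_inj U (algebraMap F F') e he m a h1
  exact (QuotientAddGroup.eq_zero_iff (N := R (m + 2) F) _).2 h2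

end main

end Pool.Agent.X321.UP
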