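import Pool.Agent.TH333.UP.Final
import Pool.Agent.X321.DC.Main
set_option autoImplicit false

/-!
The regulators of all symbols on the tori over two complex embeddings: the limit.
-/

namespace Pool.Agent.X321.UP

open Pool.Agent.TH826.MK

open Pool.Agent.TH333.UP

open Pool.Agent.X321.DC (exists_near_one)

variable {K : Type*} [Field K] {n : ℕ} {D : Dat K n}

theorem div_form {x s D0 c ε : ℝ} (hD : 0 < D0) (h : |x / s - D0 * c| ≤ ε * D0) :
    |x / (D0 * s) - c| ≤ ε := by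
  have e : x / (D0 * s) - c = (x / s - D0 * c) / D0 := by
    rw [sub_div, mul_div_cancel_left₀ _ hD.ne', div_div, mul_comm s D0]
  rw [e, abs_div, abs_of_pos hD, div_le_iff₀ hD]
  exact h

theorem large_limit (hD : D.Ok) (σ : K →+* ℂ) {ε : ℝ} (hε : 0 < ε) :
    ∃ M : ℝ, 0 < M ∧ ∀ lam : K, M ≤ Real.log ‖σ lam‖ →
      ∃ Γ : Torus (UOpen lam D) n, (∀ θ x, Γ.e θ (ucst lam D x) = σ x) ∧
        ∀ o : Option ((j : Fin n) → Fin (D.r j)),
          |Γ.reg (symb (uent lam D o)) / ((2 * Real.pi) ^ n * Real.log ‖σ lam‖) -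
            (if none = o then 1 else 0)| ≤ ε := by
  have hpi : (0 : ℝ) < (2 * Real.pi) ^ n := by
    have := Real.pi_pos
    positivity
  obtain ⟨M, hM, h⟩ := exists_large hD σ (ε := ε * (2 * Real.pi) ^ n) (by positivity)
  refine ⟨M, hM, fun lam hl => ?_⟩
  obtain ⟨Γ, h1, h2⟩ := h lam hl
  refine ⟨Γ, h1, fun o => ?_⟩
  have e1 : (if none = o then (1 : ℝ) else 0) = if o = none then 1 else 0 := by
    by_cases h : o = none
    · rw [if_pos h, if_pos h.symm]
    · rw [if_neg h, if_neg fun h' => h h'.symm]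
  rw [e1]
  exact div_form hpi (h2 o)

theorem small_limit (hD : D.Ok) (τ : K →+* ℂ) (k : (j : Fin n) → Fin (D.r j)) {ε : ℝ}
    (hε : 0 < ε) :
    ∃ M : ℝ, 0 < M ∧ ∀ lam : K, M ≤ -Real.log ‖τ lam‖ →
      ∃ Γ : Torus (UOpen lam D) n, (∀ θ x, Γ.e θ (ucst lam D x) = τ x) ∧
        ∀ o : Option ((j : Fin n) → Fin (D.r j)),
          |Γ.reg (symb (uent lam D o)) / ((2 * Real.pi) ^ n * Real.log ‖τ lam‖) -
            (if some k = o then 1 else 0)| ≤ ε := by
  have hpi : (0 : ℝ) < (2 * Real.pi) ^ n := by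
    have := Real.pi_pos
    positivity
  obtain ⟨M, hM, h⟩ := exists_small hD τ k (ε := ε * (2 * Real.pi) ^ n) (by positivity)
  refine ⟨M, hM, fun lam hl => ?_⟩
  obtain ⟨Γ, h1, h2⟩ := h lam hl
  refine ⟨Γ, h1, fun o => ?_⟩
  have h3 := div_form hpi (h2 o)
  have e1 : Γ.reg (symb (uent lam D o)) / ((2 * Real.pi) ^ n * Real.log ‖τ lam‖) -
      (if some k = o then (1 : ℝ) else 0) =
      -(Γ.reg (symb (uent lam D o)) / ((2 * Real.pi) ^ n * -Real.log ‖τ lam‖) -
        (if o = some k then -1 else 0)) := by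
    rw [mul_neg, div_neg]
    by_cases h : o = some k
    · rw [if_pos h, if_pos h.symm]
      ring
    · rw [if_neg h, if_neg fun h' => h h'.symm]
      ring
  rw [e1, abs_neg]
  exact h3

theorem exists_tori_limit (hD : D.Ok) (σ τ : K →+* ℂ) {ε : ℝ} (hε : 0 < ε) :
    ∃ M : ℝ, 0 < M ∧ ∀ lam : K, M ≤ Real.log ‖σ lam‖ → M ≤ -Real.log ‖τ lam‖ →
      ∃ Γ : Option ((j : Fin n) → Fin (D.r j)) → Torus (UOpen lam D) n,
        (∀ θ x, (Γ none).e θ (ucst lam D x) = σ x) ∧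
        (∀ k θ x, (Γ (some k)).e θ (ucst lam D x) = τ x) ∧
        (∀ o, |(Γ none).reg (symb (uent lam D o)) / ((2 * Real.pi) ^ n * Real.log ‖σ lam‖) -
            (if none = o then 1 else 0)| ≤ ε) ∧
        (∀ k o, |(Γ (some k)).reg (symb (uent lam D o)) /
            ((2 * Real.pi) ^ n * Real.log ‖τ lam‖) - (if some k = o then 1 else 0)| ≤ ε) ∧
        |(Matrix.of fun t o : Option ((j : Fin n) → Fin (D.r j)) =>
          (Γ t).reg (symb (uent lam D o))).det /
          (((2 * Real.pi) ^ n * Real.log ‖σ lam‖) *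
            ((2 * Real.pi) ^ n * Real.log ‖τ lam‖) ^ (∏ j, D.r j)) - 1| ≤ ε := by
  classical
  have hpi : (0 : ℝ) < (2 * Real.pi) ^ n := by
    have := Real.pi_pos
    positivity
  obtain ⟨δ, hδ, hδε, hnear⟩ := exists_near_one (Option ((j : Fin n) → Fin (D.r j))) hε
  obtain ⟨M1, hM1, h1⟩ := large_limit hD σ hδ
  choose M2 hM2 h2 using fun k : (j : Fin n) → Fin (D.r j) => small_limit hD τ k hδ
  have hsum : ∀ k, M2 k ≤ ∑ k, M2 k := fun k =>
    Finset.single_le_sum (f := M2) (fun k _ => (hM2 k).le) (Finset.mem_univ k)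
  have hsum0 : 0 ≤ ∑ k, M2 k := Finset.sum_nonneg fun k _ => (hM2 k).le
  refine ⟨M1 + ∑ k, M2 k, by linarith, fun lam hl1 hl2 => ?_⟩
  obtain ⟨Γ1, hΓ1, hr1⟩ := h1 lam (by linarith)
  choose Γ2 hΓ2 hr2 using fun k => h2 k lam (by linarith [hsum k])
  have hq1 : 0 < Real.log ‖σ lam‖ := by linarith
  have hq2 : 0 < -Real.log ‖τ lam‖ := by linarith
  set Γ : Option ((j : Fin n) → Fin (D.r j)) → Torus (UOpen lam D) n :=
    fun t => Option.rec Γ1 Γ2 t with hΓ
  set q : Option ((j : Fin n) → Fin (D.r j)) → ℝ := fun t =>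
    Option.rec ((2 * Real.pi) ^ n * Real.log ‖σ lam‖)
      (fun _ => (2 * Real.pi) ^ n * Real.log ‖τ lam‖) t with hq
  have hq0 : ∀ t, q t ≠ 0 := by
    intro t
    rcases t with _ | k
    · exact mul_ne_zero hpi.ne' hq1.ne'
    · exact mul_ne_zero hpi.ne' (neg_ne_zero.1 hq2.ne')
  have hent : ∀ t o, |(Γ t).reg (symb (uent lam D o)) / q t - (if t = o then 1 else 0)| ≤ δ := by
    intro t o
    rcases t with _ | k
    · exact hr1 o
    · exact hr2 k o
  refine ⟨Γ, hΓ1, hΓ2, fun o => (hr1 o).trans hδε, fun k o => (hr2 k o).trans hδε, ?_⟩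
  have h3 : (Matrix.of fun t o : Option ((j : Fin n) → Fin (D.r j)) =>
      (Γ t).reg (symb (uent lam D o))).det = (∏ t, q t) *
      (Matrix.of fun t o : Option ((j : Fin n) → Fin (D.r j)) =>
        (Γ t).reg (symb (uent lam D o)) / q t).det := by
    rw [← Matrix.det_mul_column]
    congr 1
    ext t o
    rw [Matrix.of_apply, Matrix.of_apply, Matrix.of_apply, mul_div_cancel₀ _ (hq0 t)]
  have h4 : ∏ t, q t = ((2 * Real.pi) ^ n * Real.log ‖σ lam‖) *
      ((2 * Real.pi) ^ n * Real.log ‖τ lam‖) ^ (∏ j, D.r j) := by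
    rw [Fintype.prod_option]
    congr 1
    show ∏ _k : ((j : Fin n) → Fin (D.r j)), ((2 * Real.pi) ^ n * Real.log ‖τ lam‖) = _
    rw [Finset.prod_const, Finset.card_univ]
    congr 1
    simp
  rw [h3, h4, mul_div_cancel_left₀ _ (by rw [← h4]; exact Finset.prod_ne_zero_iff.2 fun t _ => hq0 t)]
  exact hnear _ hent

end Pool.Agent.X321.UP
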