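import Pool.Agent.H39R2.Gon.RMap
import Mathlib.Order.Filter.FilterProduct

set_option autoImplicit false

/-!
# Ultrapowers of fields and rational functions
-/

namespace Pool.Agent.X321.UP

open Filter Polynomial H39Gon

variable {I : Type} (U : Ultrafilter I)

/-- the ultrapower -/
abbrev GK (K : Type) : Type := Germ (U : Filter I) K

/-- a representing family -/
noncomputable def rep {A : Type} (z : GK U A) : I → A := Quotient.out z

theorem mk_rep {A : Type} (z : GK U A) : (↑(rep U z) : GK U A) = z := Quotient.out_eq z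

theorem mk_eq {A : Type} (f g : I → A) :
    ((↑f : GK U A) = ↑g) ↔ ∀ᶠ i in (U : Filter I), f i = g i := Germ.coe_eq

/-- the homomorphism of ultrapowers given by a homomorphism of rings -/
noncomputable def gR {A B : Type} [CommRing A] [CommRing B] (f : A →+* B) : GK U A →+* GK U B where
  toFun := Germ.map f
  map_one' := by
    change Germ.map f (((1 : I → A)) : GK U A) = ((1 : I → B) : GK U B)
    rw [Germ.map_coe]
    congr 1
    funext i
    exact map_one f
  map_mul' x y := by
    rw [← mk_rep U x, ← mk_rep U y, ← Germ.coe_mul, Germ.map_coe, Germ.map_coe, Germ.map_coe,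
      ← Germ.coe_mul]
    congr 1
    funext i
    exact map_mul f _ _
  map_zero' := by
    change Germ.map f (((0 : I → A)) : GK U A) = ((0 : I → B) : GK U B)
    rw [Germ.map_coe]
    congr 1
    funext i
    exact map_zero f
  map_add' x y := by
    rw [← mk_rep U x, ← mk_rep U y, ← Germ.coe_add, Germ.map_coe, Germ.map_coe, Germ.map_coe,
      ← Germ.coe_add]
    congr 1
    funext i
    exact map_add f _ _

theorem gR_coe {A B : Type} [CommRing A] [CommRing B] (f : A →+* B) (g : I → A) :
    gR U f (↑g) = (↑(fun i => f (g i)) : GK U B) := rfl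

variable (K : Type) [Field K]

/-- polynomials over the ultrapower -/
noncomputable def kap : (GK U K)[X] →+* GK U K[X] :=
  eval₂RingHom (gR U (C : K →+* K[X])) (↑(fun _ : I => (X : K[X])))

theorem kap_C (a : I → K) : kap U K (C (↑a : GK U K)) = ↑(fun i => (C (a i) : K[X])) := by
  rw [kap, coe_eval₂RingHom, eval₂_C, gR_coe]

theorem kap_X : kap U K X = ↑(fun _ : I => (X : K[X])) := by
  rw [kap, coe_eval₂RingHom, eval₂_X]

theorem kap_eval (t0 : K) (p : (GK U K)[X]) :
    gR U (evalRingHom t0) (kap U K p) = p.eval (↑(fun _ : I => t0) : GK U K) := by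
  have h : (gR U (evalRingHom t0)).comp (kap U K) = evalRingHom (↑(fun _ : I => t0) : GK U K) := by
    apply Polynomial.ringHom_ext
    · intro a
      rw [← mk_rep U a, RingHom.comp_apply, kap_C, gR_coe]
      simp only [coe_evalRingHom, eval_C]
    · rw [RingHom.comp_apply, kap_X, gR_coe]
      simp only [coe_evalRingHom, eval_X]
  exact congrArg (fun f : (GK U K)[X] →+* GK U K => f p) h

theorem kap_coeff (n : ℕ) (p : (GK U K)[X]) :
    Germ.map (fun q : K[X] => q.coeff n) (kap U K p) = p.coeff n := by
  induction p using Polynomial.induction_on' with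
  | add p q hp hq =>
    rw [map_add, coeff_add, ← hp, ← hq]
    generalize kap U K p = a
    generalize kap U K q = b
    rw [← mk_rep U a, ← mk_rep U b, ← Germ.coe_add, Germ.map_coe, Germ.map_coe, Germ.map_coe,
      ← Germ.coe_add]
    rfl
  | monomial m a =>
    rw [← C_mul_X_pow_eq_monomial, map_mul, map_pow, kap_X, ← mk_rep U a, kap_C, ← Germ.coe_pow,
      ← Germ.coe_mul, Germ.map_coe, coeff_C_mul_X_pow]
    split_ifs with h
    · congr 1
      funext i
      change ((C (rep U a i) * X ^ m : K[X])).coeff n = _
      rw [coeff_C_mul_X_pow, if_pos h]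
    · change _ = (↑(fun _ : I => (0 : K)) : GK U K)
      congr 1
      funext i
      change ((C (rep U a i) * X ^ m : K[X])).coeff n = _
      rw [coeff_C_mul_X_pow, if_neg h]

theorem kap_inj : Function.Injective (kap U K) := by
  rw [injective_iff_map_eq_zero]
  intro p hp
  ext n
  rw [← kap_coeff, hp, coeff_zero]
  change Germ.map (fun q : K[X] => q.coeff n) ((0 : I → K[X]) : GK U K[X]) = ((0 : I → K) : GK U K)
  rw [Germ.map_coe]
  congr 1

/-- `K*[X] → K(X)*` -/
noncomputable def kapR : (GK U K)[X] →+* GK U (RatFunc K) :=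
  (gR U (algebraMap K[X] (RatFunc K))).comp (kap U K)

theorem gR_inj {A B : Type} [CommRing A] [CommRing B] (f : A →+* B) (hf : Function.Injective f) :
    Function.Injective (gR U f) := by
  intro x y h
  rw [← mk_rep U x, ← mk_rep U y, gR_coe, gR_coe, mk_eq] at h
  rw [← mk_rep U x, ← mk_rep U y, mk_eq]
  exact h.mono fun i hi => hf hi

theorem kapR_inj : Function.Injective (kapR U K) :=
  (gR_inj U _ (IsFractionRing.injective _ _)).comp (kap_inj U K)

/-- `K*(X) → K(X)*` -/
noncomputable def theta : RatFunc (GK U K) →+* GK U (RatFunc K) :=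
  IsFractionRing.lift (A := (GK U K)[X]) (kapR_inj U K)

theorem theta_div (p q : (GK U K)[X]) :
    theta U K (algebraMap (GK U K)[X] (RatFunc (GK U K)) p / algebraMap _ _ q) =
      kapR U K p / kapR U K q := by
  rw [theta, map_div₀, IsFractionRing.lift_algebraMap, IsFractionRing.lift_algebraMap]

/-- the `P^1` of the ultrapower -/
noncomputable def P1g {K : Type} : P1 (GK U K) → GK U (P1 K)
  | none => ↑(fun _ : I => (none : P1 K))
  | some a => Germ.map some a

/-- specialisation and ultrapowers -/
theorem spec_theta (t0 : K) (x : P1 (RatFunc (GK U K))) :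
    P1g U (spec (GK U K) (↑(fun _ : I => t0)) x) =
      Germ.map (spec K t0) (P1g U (x.map (theta U K))) := by
  classical
  cases x with
  | none =>
    change (↑(fun _ : I => (none : P1 K)) : GK U (P1 K)) =
      Germ.map (spec K t0) (↑(fun _ : I => (none : P1 (RatFunc K))))
    rw [Germ.map_coe]
    rfl
  | some f =>
    set T : GK U K := ↑(fun _ : I => t0) with hT
    obtain ⟨p, hp⟩ : ∃ p : I → K[X], kap U K f.num = ↑p := ⟨_, (mk_rep U _).symm⟩
    obtain ⟨q, hq⟩ : ∃ q : I → K[X], kap U K f.denom = ↑q := ⟨_, (mk_rep U _).symm⟩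
    have hf : f = algebraMap (GK U K)[X] (RatFunc (GK U K)) f.num / algebraMap _ _ f.denom :=
      f.num_div_denom.symm
    have hth : theta U K f = ↑(fun i => algebraMap K[X] (RatFunc K) (p i) /
        algebraMap K[X] (RatFunc K) (q i)) := by
      conv_lhs => rw [hf]
      rw [theta_div, kapR, RingHom.comp_apply, RingHom.comp_apply, hp, hq, gR_coe, gR_coe]
      rfl
    have hq0 : ∀ᶠ i in (U : Filter I), q i ≠ 0 := by
      have h1 : ¬ ∀ᶠ i in (U : Filter I), q i = 0 := by
        intro h
        apply f.denom_ne_zero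
        apply kap_inj U K
        rw [hq, map_zero]
        exact (mk_eq U _ _).2 h
      exact Ultrafilter.eventually_not.2 h1
    have hcop : ∀ᶠ i in (U : Filter I), IsCoprime (p i) (q i) := by
      obtain ⟨u, v, huv⟩ := f.isCoprime_num_denom
      have h1 := congrArg (kap U K) huv
      rw [map_add, map_mul, map_mul, map_one, hp, hq, ← mk_rep U (kap U K u),
        ← mk_rep U (kap U K v), ← Germ.coe_mul, ← Germ.coe_mul, ← Germ.coe_add] at h1
      have h2 : ∀ᶠ i in (U : Filter I), (rep U (kap U K u) * p + rep U (kap U K v) * q) i =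
        (1 : I → K[X]) i := (mk_eq U _ _).1 h1
      exact h2.mono fun i hi => ⟨_, _, hi⟩
    have hpe : f.num.eval T = ↑(fun i => (p i).eval t0) := by
      rw [hT, ← kap_eval, hp, gR_coe]
      rfl
    have hqe : f.denom.eval T = ↑(fun i => (q i).eval t0) := by
      rw [hT, ← kap_eval, hq, gR_coe]
      rfl
    have hR : Germ.map (spec K t0) (P1g U (Option.map (theta U K) (some f))) =
        ↑(fun i => spec K t0 (some (algebraMap K[X] (RatFunc K) (p i) /
        algebraMap K[X] (RatFunc K) (q i)))) := by
      rw [Option.map_some, hth]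
      rfl
    rw [hR]
    have hsp : ∀ᶠ i in (U : Filter I), spec K t0 (some (algebraMap K[X] (RatFunc K) (p i) /
        algebraMap K[X] (RatFunc K) (q i))) =
        if (q i).eval t0 = 0 then none else some ((p i).eval t0 / (q i).eval t0) := by
      filter_upwards [hq0, hcop] with i h1 h2
      exact rm_spec_eq t0 (p i) (q i) h1 h2 _ rfl
    have hR2 : (↑(fun i => spec K t0 (some (algebraMap K[X] (RatFunc K) (p i) /
        algebraMap K[X] (RatFunc K) (q i)))) : GK U (P1 K)) =
        ↑(fun i => if (q i).eval t0 = 0 then none else some ((p i).eval t0 / (q i).eval t0)) :=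
      (mk_eq U _ _).2 hsp
    rw [hR2, rm_spec_eq T f.num f.denom f.denom_ne_zero f.isCoprime_num_denom f hf]
    by_cases h : f.denom.eval T = 0
    · rw [if_pos h]
      rw [hqe] at h
      have h1 : ∀ᶠ i in (U : Filter I), (q i).eval t0 = 0 := (mk_eq U _ (fun _ => 0)).1 h
      refine (mk_eq U _ _).2 ?_
      filter_upwards [h1] with i hi
      rw [if_pos hi]
    · rw [if_neg h]
      have h1 : ∀ᶠ i in (U : Filter I), (q i).eval t0 ≠ 0 := by
        refine Ultrafilter.eventually_not.2 fun h2 => h ?_
        rw [hqe]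
        exact (mk_eq U _ (fun _ => 0)).2 h2
      rw [hpe, hqe]
      refine (mk_eq U _ _).2 ?_
      filter_upwards [h1] with i hi
      rw [if_neg hi]
      rfl

end Pool.Agent.X321.UP
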