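import Pool.Agent.X321.UP.Terms

set_option autoImplicit false

/-!
# Existentially closed subfields
-/

namespace Pool.Agent.X321.UP

open Filter H39Gon
open scoped TensorProduct
open Pool.Agent.TH358.GP (exists_tm exists_lm)

/-- `F` is existentially closed in `F'`: every finitely generated `F`-subalgebra of `F'` has an
`F`-rational point. -/
def ExClosed (F F' : Type) [Field F] [Field F'] [Algebra F F'] : Prop :=
  ∀ A : Subalgebra F F', A.FG → Nonempty (A →ₐ[F] F)

section embed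

variable {F F' : Type} [Field F] [Field F'] [Algebra F F']

theorem exists_embedding (h : ExClosed F F') : ∃ (I : Type) (U : Ultrafilter I)
    (e : F' →+* GK U F), ∀ x : F, e (algebraMap F F' x) = ↑(fun _ : I => x) := by
  classical
  have hA : ∀ S : Finset F', Nonempty (Algebra.adjoin F (S : Set F') →ₐ[F] F) := fun S =>
    h _ ⟨S, rfl⟩
  let s : ∀ S : Finset F', Algebra.adjoin F (S : Set F') →ₐ[F] F := fun S => (hA S).some
  let U : Ultrafilter (Finset F') := Ultrafilter.of atTop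
  have hU : (U : Filter (Finset F')) ≤ atTop := Ultrafilter.of_le atTop
  let v : F' → Finset F' → F := fun x S => if hx : x ∈ Algebra.adjoin F (S : Set F') then
    s S ⟨x, hx⟩ else 0
  have hv : ∀ (x : F') (S : Finset F') (hx : x ∈ Algebra.adjoin F (S : Set F')),
      v x S = s S ⟨x, hx⟩ := fun x S hx => dif_pos hx
  have hmem : ∀ x : F', ∀ᶠ (S : Finset F') in (U : Filter (Finset F')),
      x ∈ Algebra.adjoin F (S : Set F') := by
    intro x
    apply hU
    filter_upwards [mem_atTop ({x} : Finset F')] with S hS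
    exact Algebra.subset_adjoin (hS (Finset.mem_singleton_self x))
  let e : F' →+* GK U F :=
    { toFun := fun x => (↑(v x) : GK U F)
      map_one' := by
        refine (mk_eq U (v 1) (fun _ => (1 : F))).2 (Eventually.of_forall fun S => ?_)
        rw [hv 1 S (Subalgebra.one_mem _)]
        exact map_one (s S)
      map_mul' := by
        intro x y
        refine (mk_eq U (v (x * y)) (fun S => v x S * v y S)).2 ?_
        filter_upwards [hmem x, hmem y] with S hx hy
        rw [hv _ S hx, hv _ S hy, hv _ S (Subalgebra.mul_mem _ hx hy), ← map_mul]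
        rfl
      map_zero' := by
        refine (mk_eq U (v 0) (fun _ => (0 : F))).2 (Eventually.of_forall fun S => ?_)
        rw [hv 0 S (Subalgebra.zero_mem _)]
        exact map_zero (s S)
      map_add' := by
        intro x y
        refine (mk_eq U (v (x + y)) (fun S => v x S + v y S)).2 ?_
        filter_upwards [hmem x, hmem y] with S hx hy
        rw [hv _ S hx, hv _ S hy, hv _ S (Subalgebra.add_mem _ hx hy), ← map_add]
        rfl }
  refine ⟨Finset F', U, e, fun x => ?_⟩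
  refine (mk_eq U (v (algebraMap F F' x)) (fun _ => x)).2 (Eventually.of_forall fun S => ?_)
  rw [hv _ S (Subalgebra.algebraMap_mem _ x)]
  exact (s S).commutes x

end embed

section const

variable {I : Type} (U : Ultrafilter I) {F F' : Type} [Field F] [Field F'] (φ : F →+* F')
  (e : F' →+* GK U F) (he : ∀ x : F, e (φ x) = ↑(fun _ : I => x))

include he

theorem P1g_const (x : P1 F) : P1g U ((x.map φ).map e) = ↑(fun _ : I => x) := by
  cases x with
  | none => rfl
  | some a =>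
    rw [Option.map_some, Option.map_some, he]
    rfl

theorem uG_const (y : UV F) : uG U (rmU e (rmU φ y)) = um U (fun _ => y) := by
  have hy : y = cl ((y.toMul : Fˣ) : F) := by
    rw [cl, dif_neg y.toMul.ne_zero, Units.mk0_val]
    rfl
  rw [hy, rmU_cl, rmU_cl, he, uG_cl]

theorem HK_const (α : ZP F) : HK U (rmM e (rmM φ α)) = um U (fun _ => α) := by
  have h : (HK U) ∘ₗ (rmM e) ∘ₗ (rmM φ) =
      (toL ((umH U (ZP F)).comp (Pi.constAddMonoidHom I (ZP F))) : ZP F →ₗ[ℤ] UG U (ZP F)) := by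
    apply Finsupp.lhom_ext'
    intro x
    apply LinearMap.ext_ring
    simp only [LinearMap.comp_apply, Finsupp.lsingle_apply, rmM_single]
    rw [HK_single, P1g_const U φ e he, sg_coe]
    rfl
  exact congrArg (fun f : ZP F →ₗ[ℤ] UG U (ZP F) => f α) h

/-- injectivity of `B_n(F) → B_n(F')` -/
theorem R_inj (m : ℕ) (α : ZP F) (hα : rmM φ α ∈ R (m + 2) F') : α ∈ R (m + 2) F := by
  have h1 := rel_main U m F (rmM e (rmM φ α)) (R_map e m _ hα)
  rw [HK_const U φ e he, gH_um, ← um_zero, um_eq] at h1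
  obtain ⟨i, hi⟩ := h1.exists
  exact (Submodule.Quotient.mk_eq_zero _).1 hi

/-- constants -/
noncomputable def cQ (A : Type) [AddCommGroup A] [Module ℚ A] : A →ₗ[ℚ] UG U A where
  toFun a := um U (fun _ => a)
  map_add' _ _ := rfl
  map_smul' _ _ := rfl

omit he in
theorem cQ_inj {A : Type} [AddCommGroup A] [Module ℚ A] (a b : A)
    (h : um U (fun _ => a) = um U (fun _ => b)) : a = b := by
  rw [um_eq] at h
  obtain ⟨i, hi⟩ := h.exists
  exact hi

theorem Phi_const (m j : ℕ) (Φ : TQ F' (m + 2) j →ₗ[ℚ] UG U (TQ F (m + 2) j))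
    (hΦ : ∀ (x : P1 F') (y : Fin j → UV F') (p : I → P1 F) (q : Fin j → I → UV F),
      P1g U (x.map e) = ↑p → (∀ k, uG U (rmU e (y k)) = um U (q k)) →
      Φ (tq F' (m + 2) j x y) = um U (fun i => tq F (m + 2) j (p i) (fun k => q k i)))
    (T : TQ F (m + 2) j →ₗ[ℚ] TQ F' (m + 2) j)
    (hT : ∀ (x : P1 F) (y : Fin j → UV F),
      T (tq F (m + 2) j x y) = tq F' (m + 2) j (x.map φ) (fun i => rmU φ (y i)))
    (u : TQ F (m + 2) j) : Φ (T u) = um U (fun _ => u) := by
  have h : Φ ∘ₗ T = cQ U (TQ F (m + 2) j) := by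
    apply H39Gon.E2.text
    intro x y
    rw [LinearMap.comp_apply, hT]
    exact hΦ _ _ (fun _ => x) (fun k _ => y k) (P1g_const U φ e he x)
      (fun k => uG_const U φ e he (y k))
  exact congrArg (fun f : TQ F (m + 2) j →ₗ[ℚ] UG U (TQ F (m + 2) j) => f u) h

theorem PhiL_const (j : ℕ) (Φ : LQ F' j →ₗ[ℚ] UG U (LQ F j))
    (hΦ : ∀ (y : Fin j → UV F') (q : Fin j → I → UV F),
      (∀ k, uG U (rmU e (y k)) = um U (q k)) →
      Φ (lq F' j y) = um U (fun i => lq F j (fun k => q k i)))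
    (T : LQ F j →ₗ[ℚ] LQ F' j)
    (hT : ∀ (y : Fin j → UV F), T (lq F j y) = lq F' j (fun i => rmU φ (y i)))
    (u : LQ F j) : Φ (T u) = um U (fun _ => u) := by
  have h : Φ ∘ₗ T = cQ U (LQ F j) := by
    apply H39Gon.E2.lext
    intro y
    rw [LinearMap.comp_apply, hT]
    exact hΦ _ (fun k _ => y k) (fun k => uG_const U φ e he (y k))
  exact congrArg (fun f : LQ F j →ₗ[ℚ] UG U (LQ F j) => f u) h

/-- injectivity on the terms -/
theorem T_inj (m j : ℕ) (T : TQ F (m + 2) j →ₗ[ℚ] TQ F' (m + 2) j)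
    (hT : ∀ (x : P1 F) (y : Fin j → UV F),
      T (tq F (m + 2) j x y) = tq F' (m + 2) j (x.map φ) (fun i => rmU φ (y i))) :
    Function.Injective T := by
  obtain ⟨Φ, hΦ⟩ := exists_Phi U e m j
  intro u v huv
  have h1 := Phi_const U φ e he m j Φ hΦ T hT u
  rw [huv, Phi_const U φ e he m j Φ hΦ T hT v] at h1
  exact (cQ_inj U _ _ h1).symm

theorem L_inj (j : ℕ) (T : LQ F j →ₗ[ℚ] LQ F' j)
    (hT : ∀ (y : Fin j → UV F), T (lq F j y) = lq F' j (fun i => rmU φ (y i))) :
    Function.Injective T := by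
  obtain ⟨Φ, hΦ⟩ := exists_PhiL U e j
  intro u v huv
  have h1 := PhiL_const U φ e he j Φ hΦ T hT u
  rw [huv, PhiL_const U φ e he j Φ hΦ T hT v] at h1
  exact (cQ_inj U _ _ h1).symm

/-- injectivity on the cohomology -/
theorem coh_d (D : Differentials F) (D' : Differentials F') (m j : ℕ)
    (T : TQ F (m + 2) (j + 1) →ₗ[ℚ] TQ F' (m + 2) (j + 1))
    (hT : ∀ (x : P1 F) (y : Fin (j + 1) → UV F),
      T (tq F (m + 2) (j + 1) x y) = tq F' (m + 2) (j + 1) (x.map φ) (fun i => rmU φ (y i)))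
    (u : TQ F (m + 2) (j + 1)) (v : TQ F' (m + 3) j) (h : D'.d m j v = T u) :
    ∃ w, D.d m j w = u := by
  obtain ⟨Φ, hΦ⟩ := exists_Phi U e m (j + 1)
  obtain ⟨Φ', hΦ'⟩ := exists_Phi U e (m + 1) j
  have h1 := Phi_d U e D D' m j Φ hΦ Φ' hΦ' v
  rw [h, Phi_const U φ e he m (j + 1) Φ hΦ T hT u, ← um_urep U (Φ' v), gL_um, um_eq] at h1
  obtain ⟨i, hi⟩ := h1.exists
  exact ⟨_, hi.symm⟩

theorem coh_e (D : Differentials F) (D' : Differentials F') (j : ℕ)
    (T : LQ F (j + 2) →ₗ[ℚ] LQ F' (j + 2))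
    (hT : ∀ (y : Fin (j + 2) → UV F), T (lq F (j + 2) y) = lq F' (j + 2) (fun i => rmU φ (y i)))
    (u : LQ F (j + 2)) (v : TQ F' 2 j) (h : D'.e j v = T u) :
    ∃ w, D.e j w = u := by
  obtain ⟨Φ, hΦ⟩ := exists_PhiL U e (j + 2)
  obtain ⟨Φ', hΦ'⟩ := exists_Phi U e 0 j
  have h1 := Phi_e U e D D' j Φ hΦ Φ' hΦ' v
  rw [h, PhiL_const U φ e he (j + 2) Φ hΦ T hT u, ← um_urep U (Φ' v), gL_um, um_eq] at h1
  obtain ⟨i, hi⟩ := h1.exists
  exact ⟨_, hi.symm⟩

end const

end Pool.Agent.X321.UP
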