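import Pool.Agent.X321.UP.EC

set_option autoImplicit false

/-!
# Examples of existentially closed subfields
-/

namespace Pool.Agent.X321.UP

/-- algebraically closed fields are existentially closed in all extensions -/
theorem exClosed_algClosed (F F' : Type) [Field F] [Field F'] [Algebra F F'] [IsAlgClosed F] :
    ExClosed F F' := by
  intro A hA
  have hft : Algebra.FiniteType F A := (Subalgebra.fg_iff_finiteType A).1 hA
  obtain ⟨M, hM⟩ := Ideal.exists_maximal A
  let _ : Field (A ⧸ M) := Ideal.Quotient.field M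
  have h1 : Algebra.FiniteType F (A ⧸ M) :=
    hft.of_surjective (Ideal.Quotient.mkₐ F M) (Ideal.Quotient.mkₐ_surjective F M)
  have h2 : Module.Finite F (A ⧸ M) := finite_of_finite_type_of_isJacobsonRing F (A ⧸ M)
  have h3 : Algebra.IsAlgebraic F (A ⧸ M) := Algebra.IsAlgebraic.of_finite F (A ⧸ M)
  exact ⟨(IsAlgClosed.lift : (A ⧸ M) →ₐ[F] F).comp (Ideal.Quotient.mkₐ F M)⟩

/-- a criterion -/
theorem exClosed_of_points (F R F' : Type) [Field F] [CommRing R] [IsDomain R] [Algebra F R]
    [Field F'] [Algebra F F'] [Algebra R F'] [IsScalarTower F R F'] [IsFractionRing R F']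
    (h : ∀ q : R, q ≠ 0 → ∃ s : R →ₐ[F] F, s q ≠ 0) : ExClosed F F' := by
  classical
  rintro A ⟨S, rfl⟩
  have hinj : Function.Injective (algebraMap R F') := IsFractionRing.injective R F'
  have hfrac : ∀ f : F', ∃ a b : R, b ≠ 0 ∧ f * algebraMap R F' b = algebraMap R F' a := by
    intro f
    obtain ⟨a, b, hb, rfl⟩ := IsFractionRing.div_surjective (A := R) f
    have hb0 : b ≠ 0 := nonZeroDivisors.ne_zero hb
    refine ⟨a, b, hb0, ?_⟩
    rw [div_mul_cancel₀]
    exact fun h0 => hb0 (hinj (by rw [h0, map_zero]))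
  choose a b hb hab using hfrac
  obtain ⟨s, hs⟩ := h (∏ f ∈ S, b f) (Finset.prod_ne_zero_iff.2 fun f _ => hb f)
  rw [map_prod] at hs
  have hsb : ∀ f ∈ S, s (b f) ≠ 0 := fun f hf => Finset.prod_ne_zero_iff.1 hs f hf
  -- elements with a good denominator
  have hgood : ∀ f ∈ Algebra.adjoin F (S : Set F'), ∃ c d : R, s d ≠ 0 ∧
      f * algebraMap R F' d = algebraMap R F' c := by
    intro f hf
    induction hf using Algebra.adjoin_induction with
    | mem f hf => exact ⟨a f, b f, hsb f hf, hab f⟩
    | algebraMap r =>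
      refine ⟨algebraMap F R r, 1, by rw [map_one]; exact one_ne_zero, ?_⟩
      rw [map_one, mul_one, ← IsScalarTower.algebraMap_apply]
    | add x y _ _ hx hy =>
      obtain ⟨c, d, hd, h1⟩ := hx
      obtain ⟨c', d', hd', h2⟩ := hy
      refine ⟨c * d' + c' * d, d * d', by rw [map_mul]; exact mul_ne_zero hd hd', ?_⟩
      rw [map_add, map_mul, map_mul, map_mul, ← h1, ← h2]
      ring
    | mul x y _ _ hx hy =>
      obtain ⟨c, d, hd, h1⟩ := hx
      obtain ⟨c', d', hd', h2⟩ := hy
      refine ⟨c * c', d * d', by rw [map_mul]; exact mul_ne_zero hd hd', ?_⟩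
      rw [map_mul, map_mul, ← h1, ← h2]
      ring
  choose c d hd hcd using hgood
  have key : ∀ (f : F') (hf : f ∈ Algebra.adjoin F (S : Set F')) (c' d' : R), s d' ≠ 0 →
      f * algebraMap R F' d' = algebraMap R F' c' → s (c f hf) / s (d f hf) = s c' / s d' := by
    intro f hf c' d' hd' h1
    rw [div_eq_div_iff (hd f hf) hd', ← map_mul, ← map_mul]
    congr 1
    apply hinj
    rw [map_mul, map_mul, ← h1, ← hcd f hf]
    ring
  let t : Algebra.adjoin F (S : Set F') → F := fun f => s (c f f.2) / s (d f f.2)
  refine ⟨{ toFun := t, map_one' := ?_, map_mul' := ?_, map_zero' := ?_, map_add' := ?_,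
            commutes' := ?_ }⟩
  · have := key 1 (Subalgebra.one_mem _) 1 1 (by rw [map_one]; exact one_ne_zero) (by rw [one_mul])
    rw [map_one, div_one] at this
    exact this
  · intro x y
    have := key _ (Subalgebra.mul_mem _ x.2 y.2) (c x x.2 * c y y.2) (d x x.2 * d y y.2)
      (by rw [map_mul]; exact mul_ne_zero (hd _ _) (hd _ _)) (by
        rw [map_mul, map_mul, ← hcd x x.2, ← hcd y y.2]; ring)
    rw [map_mul, map_mul, ← div_mul_div_comm] at this
    exact this
  · have := key 0 (Subalgebra.zero_mem _) 0 1 (by rw [map_one]; exact one_ne_zero) (by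
      rw [zero_mul, map_zero])
    rw [map_zero, zero_div] at this
    exact this
  · intro x y
    have := key _ (Subalgebra.add_mem _ x.2 y.2) (c x x.2 * d y y.2 + d x x.2 * c y y.2)
      (d x x.2 * d y y.2)
      (by rw [map_mul]; exact mul_ne_zero (hd _ _) (hd _ _)) (by
        rw [map_add, map_mul, map_mul, map_mul, ← hcd x x.2, ← hcd y y.2]; ring)
    rw [map_mul, map_add, map_mul, map_mul] at this
    change _ = s (c x x.2) / s (d x x.2) + s (c y y.2) / s (d y y.2)
    rw [div_add_div _ _ (hd _ _) (hd _ _)]
    exact this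
  · intro r
    have := key _ (Subalgebra.algebraMap_mem (Algebra.adjoin F (S : Set F')) r)
      (algebraMap F R r) 1 (by rw [map_one]; exact one_ne_zero) (by
        rw [map_one, mul_one, ← IsScalarTower.algebraMap_apply])
    rw [map_one, div_one, AlgHom.commutes] at this
    exact this

/-- infinite fields are existentially closed in purely transcendental extensions -/
theorem exClosed_mvPoly (F F' σ : Type) [Field F] [Infinite F] [Field F'] [Algebra F F']
    [Algebra (MvPolynomial σ F) F'] [IsScalarTower F (MvPolynomial σ F) F']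
    [IsFractionRing (MvPolynomial σ F) F'] : ExClosed F F' := by
  refine exClosed_of_points F (MvPolynomial σ F) F' fun q hq => ?_
  by_contra h
  push Not at h
  apply hq
  apply MvPolynomial.funext
  intro x
  rw [map_zero]
  exact h (MvPolynomial.aeval x)

theorem exClosed_ratFunc (F : Type) [Field F] [Infinite F] : ExClosed F (RatFunc F) := by
  refine exClosed_of_points F (Polynomial F) (RatFunc F) fun q hq => ?_
  by_contra h
  push Not at h
  apply hq
  apply Polynomial.funext
  intro x
  rw [Polynomial.eval_zero]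
  have := h (Polynomial.aeval x)
  rwa [Polynomial.coe_aeval_eq_eval] at this

end Pool.Agent.X321.UP
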