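import Pool.Agent.X321.UP.Base

set_option autoImplicit false

/-!
# Ultrapowers of abelian groups
-/

namespace Pool.Agent.X321.UP

open Filter H39Gon
open scoped TensorProduct

variable {I : Type} (U : Ultrafilter I)

/-- the ultrapower of an abelian group -/
def UG (A : Type) : Type := GK U A

noncomputable instance instUG (A : Type) [AddCommGroup A] : AddCommGroup (UG U A) :=
  inferInstanceAs (AddCommGroup (Germ (U : Filter I) A))

noncomputable instance instUGQ (A : Type) [AddCommGroup A] [Module ℚ A] : Module ℚ (UG U A) :=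
  inferInstanceAs (Module ℚ (Germ (U : Filter I) A))

/-- the class of a family -/
def um {A : Type} (f : I → A) : UG U A := (↑f : GK U A)

/-- a representing family -/
noncomputable def urep {A : Type} (z : UG U A) : I → A := rep U z

theorem um_urep {A : Type} (z : UG U A) : um U (urep U z) = z := mk_rep U z

theorem um_eq {A : Type} (f g : I → A) :
    (um U f = um U g) ↔ ∀ᶠ i in (U : Filter I), f i = g i := mk_eq U f g

theorem urep_um {A : Type} (f : I → A) : ∀ᶠ i in (U : Filter I), urep U (um U f) i = f i :=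
  (um_eq U _ _).1 (um_urep U (um U f))

theorem um_add {A : Type} [AddCommGroup A] (f g : I → A) :
    um U (fun i => f i + g i) = um U f + um U g := rfl

theorem um_zero {A : Type} [AddCommGroup A] : um U (fun _ => (0 : A)) = 0 := rfl

/-- `um` as a homomorphism -/
def umH (A : Type) [AddCommGroup A] : (I → A) →+ UG U A where
  toFun := um U
  map_zero' := rfl
  map_add' _ _ := rfl

theorem um_zsmul {A : Type} [AddCommGroup A] (c : ℤ) (f : I → A) :
    um U (fun i => c • f i) = c • um U f := map_zsmul (umH U A) c f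

theorem urep_zsmul {A : Type} [AddCommGroup A] (c : ℤ) (x : UG U A) :
    ∀ᶠ i in (U : Filter I), urep U (c • x) i = c • urep U x i := by
  rw [← um_eq, um_urep, um_zsmul, um_urep]

theorem urep_add {A : Type} [AddCommGroup A] (x y : UG U A) :
    ∀ᶠ i in (U : Filter I), urep U (x + y) i = urep U x i + urep U y i := by
  rw [← um_eq, um_urep, um_add, um_urep, um_urep]

theorem um_qsmul {A : Type} [AddCommGroup A] [Module ℚ A] (c : ℚ) (f : I → A) :
    um U (fun i => c • f i) = c • um U f := rfl

/-- additive maps are linear for all `ℤ`-module structures -/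
def toL {A B : Type} [AddCommGroup A] [AddCommGroup B] [Module ℤ A] [Module ℤ B] (f : A →+ B) :
    A →ₗ[ℤ] B :=
  { f with
    map_smul' := fun n x => by
      have h1 := Int.cast_smul_eq_zsmul ℤ n x
      have h2 := Int.cast_smul_eq_zsmul ℤ n (f x)
      simp only [Int.cast_id] at h1 h2
      have h3 := map_zsmul f n x
      exact (congrArg f.toFun h1).trans (h3.trans h2.symm) }

theorem toL_apply {A B : Type} [AddCommGroup A] [AddCommGroup B] [Module ℤ A] [Module ℤ B]
    (f : A →+ B) (x : A) : toL f x = f x := rfl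

/-- functoriality of the ultrapower -/
noncomputable def gH {A B : Type} [AddCommGroup A] [AddCommGroup B] (f : A →+ B) :
    UG U A →+ UG U B where
  toFun z := um U (fun i => f (urep U z i))
  map_zero' := by
    rw [← um_zero U (A := B), um_eq]
    have h := urep_um U (fun _ => (0 : A))
    exact h.mono fun i hi => by
      change f (urep U (um U (fun _ => (0 : A))) i) = 0
      rw [hi, map_zero]
  map_add' x y := by
    rw [← um_add, um_eq]
    exact (urep_add U x y).mono fun i hi => by rw [hi, map_add]

theorem gH_um {A B : Type} [AddCommGroup A] [AddCommGroup B] (f : A →+ B) (g : I → A) :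
    gH U f (um U g) = um U (fun i => f (g i)) :=
  (um_eq U _ _).2 ((urep_um U g).mono fun i hi => by rw [hi])

theorem gH_eq_zero {A B : Type} [AddCommGroup A] [AddCommGroup B] (f : A →+ B) (z : UG U A)
    (h : gH U f z = 0) : ∀ᶠ i in (U : Filter I), f (urep U z i) = 0 :=
  (um_eq U _ (fun _ => (0 : B))).1 h

/-! ### tensor products -/

/-- pairings of ultrapowers -/
noncomputable def gT {A A' B B' : Type} [AddCommGroup A] [AddCommGroup A'] [AddCommGroup B]
    [AddCommGroup B'] [Module ℤ A] [Module ℤ B] [Module ℤ A'] [Module ℤ B']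
    (f : A →+ UG U A') (g : B →+ UG U B') : A ⊗[ℤ] B →ₗ[ℤ] UG U (A' ⊗[ℤ] B') :=
  TensorProduct.lift (toL (AddMonoidHom.mk' (fun a => toL (AddMonoidHom.mk'
    (fun b => um U (fun i => (urep U (f a) i) ⊗ₜ[ℤ] (urep U (g b) i))) (by
      intro b b'
      rw [← um_add, um_eq, map_add]
      exact (urep_add U (g b) (g b')).mono fun i hi => by rw [hi, TensorProduct.tmul_add]))) (by
      intro a a'
      ext b
      change um U (fun i => (urep U (f (a + a')) i) ⊗ₜ[ℤ] (urep U (g b) i)) =
        um U (fun i => (urep U (f a) i) ⊗ₜ[ℤ] (urep U (g b) i)) +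
        um U (fun i => (urep U (f a') i) ⊗ₜ[ℤ] (urep U (g b) i))
      rw [← um_add, um_eq, map_add]
      exact (urep_add U (f a) (f a')).mono fun i hi => by rw [hi, TensorProduct.add_tmul])))

theorem gT_tmul {A A' B B' : Type} [AddCommGroup A] [AddCommGroup A'] [AddCommGroup B]
    [AddCommGroup B'] [Module ℤ A] [Module ℤ B] [Module ℤ A'] [Module ℤ B']
    (f : A →+ UG U A') (g : B →+ UG U B') (a : A) (b : B) :
    gT U f g (a ⊗ₜ[ℤ] b) = um U (fun i => (urep U (f a) i) ⊗ₜ[ℤ] (urep U (g b) i)) := rfl

theorem gT_tmul' {A A' B B' : Type} [AddCommGroup A] [AddCommGroup A'] [AddCommGroup B]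
    [AddCommGroup B'] [Module ℤ A] [Module ℤ B] [Module ℤ A'] [Module ℤ B']
    (f : A →+ UG U A') (g : B →+ UG U B') (a : A) (b : B) (p : I → A') (q : I → B')
    (hp : f a = um U p) (hq : g b = um U q) :
    gT U f g (a ⊗ₜ[ℤ] b) = um U (fun i => (p i) ⊗ₜ[ℤ] (q i)) := by
  rw [gT_tmul, um_eq, hp, hq]
  filter_upwards [urep_um U p, urep_um U q] with i h1 h2
  rw [h1, h2]

/-! ### exterior powers -/

/-- alternating products of ultrapowers -/
noncomputable def gA {V V' : Type} [AddCommGroup V] [AddCommGroup V'] (f : V →+ UG U V') (j : ℕ) :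
    V [⋀^Fin j]→ₗ[ℤ] UG U (⋀[ℤ]^j V') where
  toFun y := um U (fun i => exteriorPower.ιMulti ℤ j (fun k => urep U (f (y k)) i))
  map_update_add' := by
    intro _ y k a b
    rw [← um_add, um_eq]
    have h1 := urep_add U (f a) (f b)
    rw [← map_add] at h1
    filter_upwards [h1] with i hi
    have e : ∀ c : V, (fun k' => urep U (f (Function.update y k c k')) i) =
        Function.update (fun k' => urep U (f (y k')) i) k (urep U (f c) i) := by
      intro c
      funext k'
      by_cases h : k' = k
      · subst h; rw [Function.update_self, Function.update_self]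
      · rw [Function.update_of_ne h, Function.update_of_ne h]
    convert (exteriorPower.ιMulti ℤ (M := V') j).map_update_add
      (fun k' => urep U (f (y k')) i) k (urep U (f a) i) (urep U (f b) i) using 2
    · rw [← hi]; convert e (a + b)
    · congr 1; convert e a
    · congr 1; convert e b
  map_update_smul' := by
    intro _ y k c a
    rw [← um_zsmul, um_eq]
    have h1 := urep_zsmul U c (f a)
    rw [← map_zsmul] at h1
    filter_upwards [h1] with i hi
    have e : ∀ c : V, (fun k' => urep U (f (Function.update y k c k')) i) =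
        Function.update (fun k' => urep U (f (y k')) i) k (urep U (f c) i) := by
      intro c
      funext k'
      by_cases h : k' = k
      · subst h; rw [Function.update_self, Function.update_self]
      · rw [Function.update_of_ne h, Function.update_of_ne h]
    convert (exteriorPower.ιMulti ℤ (M := V') j).map_update_smul
      (fun k' => urep U (f (y k')) i) k c (urep U (f a) i) using 2
    · rw [← hi]; convert e (c • a)
    · congr 1; convert e a
  map_eq_zero_of_eq' := by
    intro y k k' h hne
    rw [← um_zero, um_eq]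
    refine Eventually.of_forall fun i => ?_
    exact AlternatingMap.map_eq_zero_of_eq _ _ (i := k) (j := k') (by rw [h]) hne

/-- exterior powers of ultrapowers -/
noncomputable def gE {V V' : Type} [AddCommGroup V] [AddCommGroup V'] (f : V →+ UG U V') (j : ℕ) :
    (⋀[ℤ]^j V) →ₗ[ℤ] UG U (⋀[ℤ]^j V') :=
  exteriorPower.alternatingMapLinearEquiv (gA U f j)

theorem gE_apply {V V' : Type} [AddCommGroup V] [AddCommGroup V'] (f : V →+ UG U V') (j : ℕ)
    (y : Fin j → V) (z : Fin j → I → V') (h : ∀ k, f (y k) = um U (z k)) :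
    gE U f j (exteriorPower.ιMulti ℤ j y) =
      um U (fun i => exteriorPower.ιMulti ℤ j (fun k => z k i)) := by
  rw [gE, exteriorPower.alternatingMapLinearEquiv_apply_ιMulti]
  change um U (fun i => exteriorPower.ιMulti ℤ j (fun k => urep U (f (y k)) i)) = _
  rw [um_eq]
  have h1 : ∀ᶠ i in (U : Filter I), ∀ k : Fin j, urep U (f (y k)) i = z k i := by
    rw [eventually_all]
    intro k
    rw [h k]
    exact urep_um U (z k)
  filter_upwards [h1] with i hi
  congr 1
  funext k
  exact hi k

/-! ### rational coefficients -/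

/-- `ℚ ⊗ A → (ℚ ⊗ A')*` -/
noncomputable def gQ {A A' : Type} [AddCommGroup A] [AddCommGroup A'] [Module ℤ A] [Module ℤ A']
    (f : A →+ UG U A') : ℚ ⊗[ℤ] A →ₗ[ℤ] UG U (ℚ ⊗[ℤ] A') :=
  TensorProduct.lift (toL (AddMonoidHom.mk' (fun q : ℚ => toL (AddMonoidHom.mk'
    (fun a => um U (fun i => q ⊗ₜ[ℤ] (urep U (f a) i))) (by
      intro a a'
      rw [← um_add, um_eq, map_add]
      exact (urep_add U (f a) (f a')).mono fun i hi => by rw [hi, TensorProduct.tmul_add]))) (by
      intro q q'
      ext a
      change um U (fun i => (q + q') ⊗ₜ[ℤ] (urep U (f a) i)) =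
        um U (fun i => q ⊗ₜ[ℤ] (urep U (f a) i)) + um U (fun i => q' ⊗ₜ[ℤ] (urep U (f a) i))
      rw [← um_add]
      congr 1
      funext i
      rw [TensorProduct.add_tmul])))

theorem gQ_tmul {A A' : Type} [AddCommGroup A] [AddCommGroup A'] [Module ℤ A] [Module ℤ A']
    (f : A →+ UG U A') (q : ℚ) (a : A) (p : I → A') (hp : f a = um U p) :
    gQ U f (q ⊗ₜ[ℤ] a) = um U (fun i => q ⊗ₜ[ℤ] (p i)) := by
  change um U (fun i => q ⊗ₜ[ℤ] (urep U (f a) i)) = _
  rw [um_eq, hp]
  filter_upwards [urep_um U p] with i h1
  rw [h1]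

theorem gQ_smul {A A' : Type} [AddCommGroup A] [AddCommGroup A'] [Module ℤ A] [Module ℤ A']
    (f : A →+ UG U A') (c : ℚ) (z : ℚ ⊗[ℤ] A) : gQ U f (c • z) = c • gQ U f z := by
  refine TensorProduct.induction_on z ?_ ?_ ?_
  · rw [smul_zero, map_zero, smul_zero]
  · intro q a
    rw [TensorProduct.smul_tmul', gQ_tmul U f _ a _ (um_urep U (f a)).symm,
      gQ_tmul U f _ a _ (um_urep U (f a)).symm, ← um_qsmul]
    rfl
  · intro a b ha hb
    rw [smul_add, map_add, map_add, ha, hb, smul_add]

end Pool.Agent.X321.UP
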