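import Pool.Agent.X321.UP.Grp

set_option autoImplicit false

/-!
# Goncharov's relation groups and ultrapowers
-/

namespace Pool.Agent.X321.UP

open Filter H39Gon
open scoped TensorProduct

variable {I : Type} (U : Ultrafilter I)

section maps

variable {K : Type} [Field K]

/-- `{x} ↦ {x_i}` -/
noncomputable def sg (z : GK U (P1 K)) : UG U (ZP K) := um U (fun i => Finsupp.single (rep U z i) 1)

theorem sg_coe (f : I → P1 K) : sg U (↑f : GK U (P1 K)) = um U (fun i => Finsupp.single (f i) 1) := by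
  rw [sg, um_eq]
  have h : ∀ᶠ i in (U : Filter I), rep U (↑f : GK U (P1 K)) i = f i :=
    (mk_eq U _ _).1 (mk_rep U _)
  exact h.mono fun i hi => by rw [hi]

/-- `ℤ[P^1_{K*}] → ℤ[P^1_K]*` -/
noncomputable def HK : ZP (GK U K) →ₗ[ℤ] UG U (ZP K) :=
  Finsupp.linearCombination ℤ (fun x => sg U (P1g U x))

theorem HK_single (x : P1 (GK U K)) : HK U (Finsupp.single x 1) = sg U (P1g U x) := by
  rw [HK, Finsupp.linearCombination_single, one_smul]

theorem HK_some (a : I → K) :
    HK U (Finsupp.single (some (↑a : GK U K)) 1) = um U (fun i => Finsupp.single (some (a i)) 1) := by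
  rw [HK_single]
  exact sg_coe U (fun i => some (a i))

theorem HK_none :
    HK U (Finsupp.single (none : P1 (GK U K)) 1) = um U (fun _ => Finsupp.single none 1) := by
  rw [HK_single]
  exact sg_coe U (fun _ => none)

theorem lmap_single {A B : Type} (f : A → B) (a : A) :
    (Finsupp.lmapDomain ℤ ℤ f) (Finsupp.single a 1) = Finsupp.single (f a) 1 := by
  rw [Finsupp.lmapDomain_apply, Finsupp.mapDomain_single]

/-- specialisation -/
theorem HK_specZ (t0 : K) (α : ZP (RatFunc (GK U K))) :
    HK U (specZ (GK U K) (↑(fun _ : I => t0)) α) =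
      gH U (specZ K t0).toAddMonoidHom (HK U (rmM (theta U K) α)) := by
  have h : (HK U) ∘ₗ (specZ (GK U K) (↑(fun _ : I => t0))) =
      (toL (gH U (specZ K t0).toAddMonoidHom)) ∘ₗ (HK U) ∘ₗ (rmM (theta U K)) := by
    apply Finsupp.lhom_ext'
    intro x
    apply LinearMap.ext_ring
    simp only [LinearMap.comp_apply, Finsupp.lsingle_apply, rmM_single, toL_apply]
    rw [specZ, lmap_single, HK_single, HK_single, spec_theta]
    generalize P1g U (x.map (theta U K)) = z
    rw [← mk_rep U z, Germ.map_coe, sg_coe, sg_coe, gH_um]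
    congr 1
    funext i
    change _ = specZ K t0 (Finsupp.single (rep U z i) 1)
    rw [specZ, lmap_single]
    rfl
  exact congrArg (fun f : ZP (RatFunc (GK U K)) →ₗ[ℤ] UG U (ZP K) => f α) h

/-- `x ↦ x_i` on units -/
noncomputable def uG : UV (GK U K) →+ UG U (UV K) where
  toFun y := um U (fun i => cl (rep U ((y.toMul : (GK U K)ˣ) : GK U K) i))
  map_zero' := by
    rw [← um_zero U (A := UV K), um_eq]
    have h : ∀ᶠ i in (U : Filter I), rep U (1 : GK U K) i = 1 :=
      (mk_eq U _ _).1 (mk_rep U (1 : GK U K))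
    refine h.mono fun i hi => ?_
    change cl (rep U (1 : GK U K) i) = 0
    rw [hi]
    have h1 : (1 : K) ≠ 0 := one_ne_zero
    rw [cl, dif_neg h1]
    have : Units.mk0 (1 : K) h1 = 1 := by ext; rfl
    rw [this]; rfl
  map_add' x y := by
    rw [← um_add, um_eq]
    have hne : ∀ z : UV (GK U K), ∀ᶠ i in (U : Filter I),
        rep U ((z.toMul : (GK U K)ˣ) : GK U K) i ≠ 0 := by
      intro z
      refine Ultrafilter.eventually_not.2 fun h => z.toMul.ne_zero ?_
      rw [← mk_rep U ((z.toMul : (GK U K)ˣ) : GK U K)]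
      exact (mk_eq U _ (fun _ => 0)).2 h
    have hmul : ∀ᶠ i in (U : Filter I), rep U (((x + y).toMul : (GK U K)ˣ) : GK U K) i =
        rep U ((x.toMul : (GK U K)ˣ) : GK U K) i * rep U ((y.toMul : (GK U K)ˣ) : GK U K) i := by
      rw [← mk_eq, mk_rep]
      have e : (((x + y).toMul : (GK U K)ˣ) : GK U K) =
        ((x.toMul : (GK U K)ˣ) : GK U K) * ((y.toMul : (GK U K)ˣ) : GK U K) := rfl
      rw [e]
      conv_lhs => rw [← mk_rep U ((x.toMul : (GK U K)ˣ) : GK U K),
        ← mk_rep U ((y.toMul : (GK U K)ˣ) : GK U K), ← Germ.coe_mul]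
      rfl
    filter_upwards [hne x, hne y, hmul] with i h1 h2 h3
    rw [h3, cl, dif_neg (mul_ne_zero h1 h2), cl, dif_neg h1, cl, dif_neg h2, ← ofMul_mul]
    congr 1
    ext; rfl

theorem uG_cl (a : I → K) : uG U (cl (↑a : GK U K)) = um U (fun i => cl (a i)) := by
  by_cases h : (↑a : GK U K) = 0
  · have h1 : ∀ᶠ i in (U : Filter I), a i = 0 := (mk_eq U _ (fun _ => 0)).1 h
    have h2 : cl (↑a : GK U K) = 0 := by rw [cl, dif_pos h]
    rw [h2, map_zero, ← um_zero, um_eq]
    refine h1.mono fun i hi => ?_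
    rw [hi, cl, dif_pos rfl]
  · rw [cl, dif_neg h]
    change um U (fun i => cl (rep U (↑a : GK U K) i)) = _
    rw [um_eq]
    have h3 : ∀ᶠ i in (U : Filter I), rep U (↑a : GK U K) i = a i := (mk_eq U _ _).1 (mk_rep U _)
    exact h3.mono fun i hi => by rw [hi]

theorem gE_two {V V' : Type} [AddCommGroup V] [AddCommGroup V'] (f : V →+ UG U V')
    (a b : V) (p q : I → V') (hp : f a = um U p) (hq : f b = um U q) :
    gE U f 2 (exteriorPower.ιMulti ℤ 2 ![a, b]) =
      um U (fun i => exteriorPower.ιMulti ℤ 2 ![p i, q i]) := by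
  rw [gE_apply U f 2 ![a, b] (![p, q] : Fin 2 → I → V') (fun k => by
    fin_cases k
    · exact hp
    · exact hq)]
  congr 1

/-- compatibility with `δ_2` -/
theorem HK_delta2 (α : ZP (GK U K)) :
    gE U (uG U) 2 (delta2 (GK U K) α) = gH U (delta2 K).toAddMonoidHom (HK U α) := by
  have h : (gE U (uG U) 2) ∘ₗ (delta2 (GK U K)) =
      (toL (gH U (delta2 K).toAddMonoidHom)) ∘ₗ (HK U) := by
    apply Finsupp.lhom_ext'
    intro x
    apply LinearMap.ext_ring
    simp only [LinearMap.comp_apply, Finsupp.lsingle_apply, toL_apply]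
    cases x with
    | none =>
      rw [HK_none, gH_um, delta2, Finsupp.linearCombination_single, smul_zero, map_zero,
        ← um_zero]
      congr 1
      funext i
      change 0 = delta2 K _
      rw [delta2, Finsupp.linearCombination_single, smul_zero]
    | some x =>
      rw [← mk_rep U x, HK_some, gH_um, delta2, Finsupp.linearCombination_single, one_smul]
      have e1 : (1 : GK U K) - ↑(rep U x) = ↑(fun i => 1 - rep U x i) := rfl
      have e2 := gE_two U (uG U) (cl ((1 : GK U K) - ↑(rep U x))) (cl (↑(rep U x) : GK U K)) _ _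
        ((congrArg (fun z => uG U (cl z)) e1).trans (uG_cl U _)) (uG_cl U _)
      refine e2.trans ?_
      congr 1
      funext i
      change _ = delta2 K _
      rw [delta2, Finsupp.linearCombination_single, one_smul]
  exact congrArg (fun f : ZP (GK U K) →ₗ[ℤ] UG U (⋀[ℤ]^2 (UV K)) => f α) h

/-- the map of the quotients -/
noncomputable def qB (S : Submodule ℤ (ZP (GK U K))) (S' : Submodule ℤ (ZP K))
    (h : ∀ r ∈ S, gH U S'.mkQ.toAddMonoidHom (HK U r) = 0) :
    (ZP (GK U K) ⧸ S) →ₗ[ℤ] UG U (ZP K ⧸ S') :=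
  S.liftQ ((toL (gH U S'.mkQ.toAddMonoidHom)) ∘ₗ (HK U)) (fun r hr => h r hr)

theorem qB_mk (S : Submodule ℤ (ZP (GK U K))) (S' : Submodule ℤ (ZP K))
    (h : ∀ r ∈ S, gH U S'.mkQ.toAddMonoidHom (HK U r) = 0) (r : ZP (GK U K)) :
    qB U S S' h (S.mkQ r) = gH U S'.mkQ.toAddMonoidHom (HK U r) := rfl

theorem qB_some (S : Submodule ℤ (ZP (GK U K))) (S' : Submodule ℤ (ZP K))
    (h : ∀ r ∈ S, gH U S'.mkQ.toAddMonoidHom (HK U r) = 0) (a : I → K) :
    qB U S S' h (S.mkQ (Finsupp.single (some (↑a : GK U K)) 1)) =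
      um U (fun i => S'.mkQ (Finsupp.single (some (a i)) 1)) := by
  rw [qB_mk, HK_some, gH_um]
  rfl

/-- compatibility with `δ_n`, `n ≥ 3` -/
theorem HK_deltaS (S : Submodule ℤ (ZP (GK U K))) (S' : Submodule ℤ (ZP K))
    (h : ∀ r ∈ S, gH U S'.mkQ.toAddMonoidHom (HK U r) = 0) (α : ZP (GK U K)) :
    gT U (qB U S S' h).toAddMonoidHom (uG U) (deltaS (GK U K) S α) =
      gH U (deltaS K S').toAddMonoidHom (HK U α) := by
  have h : (gT U (qB U S S' h).toAddMonoidHom (uG U)) ∘ₗ (deltaS (GK U K) S) =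
      (toL (gH U (deltaS K S').toAddMonoidHom)) ∘ₗ (HK U) := by
    apply Finsupp.lhom_ext'
    intro x
    apply LinearMap.ext_ring
    simp only [LinearMap.comp_apply, Finsupp.lsingle_apply, toL_apply]
    cases x with
    | none =>
      rw [HK_none, gH_um, rm_deltaS_none, map_zero, ← um_zero]
      congr 1
      funext i
      exact (rm_deltaS_none S' 1).symm
    | some x =>
      rw [← mk_rep U x, HK_some, gH_um, rm_deltaS_some, one_smul,
        gT_tmul' U _ _ _ _ _ _ (qB_some U S S' h _) (uG_cl U _)]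
      congr 1
      funext i
      change _ = deltaS K S' _
      rw [rm_deltaS_some, one_smul]
  exact congrArg (fun f : ZP (GK U K) →ₗ[ℤ] UG U ((ZP K ⧸ S') ⊗[ℤ] UV K) => f α) h

end maps

/-- one step: relation groups defined by compatible subgroups -/
theorem rel_step {K : Type} [Field K] (A : Submodule ℤ (ZP (RatFunc (GK U K))))
    (A' : Submodule ℤ (ZP (RatFunc K)))
    (h : ∀ α ∈ A, ∀ᶠ i in (U : Filter I), urep U (HK U (rmM (theta U K) α)) i ∈ A')
    (r : ZP (GK U K)) (hr : r ∈ relSpan (GK U K) A) :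
    gH U (relSpan K A').mkQ.toAddMonoidHom (HK U r) = 0 := by
  have hle : relSpan (GK U K) A ≤
      LinearMap.ker ((toL (gH U (relSpan K A').mkQ.toAddMonoidHom)) ∘ₗ (HK U)) := by
    unfold relSpan
    rw [Submodule.span_le]
    rintro β (hβ | ⟨α, hα, rfl⟩)
    · rw [SetLike.mem_coe, LinearMap.mem_ker, LinearMap.comp_apply, toL_apply]
      rcases hβ with rfl | hβ
      · have e : (Finsupp.single (some (0 : GK U K)) 1 : ZP (GK U K)) =
            Finsupp.single (some (↑(fun _ : I => (0 : K)) : GK U K)) 1 := rfl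
        rw [e, HK_some, gH_um, ← um_zero]
        congr 1
        funext i
        exact (Submodule.Quotient.mk_eq_zero _).2 (Submodule.subset_span (Or.inl (Or.inl rfl)))
      · rw [Set.mem_singleton_iff] at hβ
        subst hβ
        rw [HK_none, gH_um, ← um_zero]
        congr 1
        funext i
        exact (Submodule.Quotient.mk_eq_zero _).2 (Submodule.subset_span (Or.inl (Or.inr rfl)))
    · rw [SetLike.mem_coe, LinearMap.mem_ker, LinearMap.comp_apply, toL_apply, map_sub]
      have e0 := HK_specZ U (0 : K) α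
      have e1 := HK_specZ U (1 : K) α
      have e0' : (0 : GK U K) = ↑(fun _ : I => (0 : K)) := rfl
      have e1' : (1 : GK U K) = ↑(fun _ : I => (1 : K)) := rfl
      rw [e0', e1', e0, e1]
      set z := HK U (rmM (theta U K) α) with hz
      have hzz := h α hα
      rw [← hz] at hzz
      rw [← um_urep U z, gH_um, gH_um, map_sub, gH_um, gH_um, sub_eq_zero, um_eq]
      filter_upwards [hzz] with i hi
      have h3 : specZ K 0 (urep U z i) - specZ K 1 (urep U z i) ∈ relSpan K A' :=
        Submodule.subset_span (Or.inr ⟨_, hi, rfl⟩)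
      have h4 := (Submodule.Quotient.mk_eq_zero (relSpan K A')).2 h3
      exact sub_eq_zero.1 h4
  exact hle hr

/-- Goncharov's relation groups are compatible with ultrapowers -/
theorem rel_main (m : ℕ) : ∀ (K : Type) [Field K] (r : ZP (GK U K)), r ∈ R (m + 2) (GK U K) →
    gH U (R (m + 2) K).mkQ.toAddMonoidHom (HK U r) = 0 := by
  induction m with
  | zero =>
    intro K _ r hr
    refine rel_step U (LinearMap.ker (delta2 (RatFunc (GK U K)))) (LinearMap.ker (delta2 (RatFunc K)))
      (fun α hα => ?_) r hr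
    rw [LinearMap.mem_ker] at hα
    have h1 : delta2 (GK U (RatFunc K)) (rmM (theta U K) α) = 0 := by
      rw [rm_delta2, hα, map_zero]
    have h2 := HK_delta2 U (rmM (theta U K) α)
    rw [h1, map_zero] at h2
    exact gH_eq_zero U _ _ h2.symm
  | succ m ih =>
    intro K _ r hr
    refine rel_step U (LinearMap.ker (deltaS (RatFunc (GK U K)) (R (m + 2) (RatFunc (GK U K)))))
      (LinearMap.ker (deltaS (RatFunc K) (R (m + 2) (RatFunc K)))) (fun α hα => ?_) r hr
    rw [LinearMap.mem_ker] at hα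
    have h1 : deltaS (GK U (RatFunc K)) (R (m + 2) (GK U (RatFunc K))) (rmM (theta U K) α) = 0 := by
      rw [rm_deltaS (theta U K) (R (m + 2) (RatFunc (GK U K))) (R (m + 2) (GK U (RatFunc K)))
        (fun s hs => R_map (theta U K) m s hs), hα, map_zero]
    have h2 := HK_deltaS U (R (m + 2) (GK U (RatFunc K))) (R (m + 2) (RatFunc K))
      (ih (RatFunc K)) (rmM (theta U K) α)
    rw [h1, map_zero] at h2
    exact gH_eq_zero U _ _ h2.symm

end Pool.Agent.X321.UP
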