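import Pool.Agent.X321.UP.Rel
import Pool.Agent.TH358.GP.Cx

set_option autoImplicit false

/-!
# The terms of Goncharov's complexes and ultrapowers
-/

namespace Pool.Agent.X321.UP

open Filter H39Gon
open scoped TensorProduct
open Pool.Agent.TH358.GP (exists_tm exists_lm)

variable {I : Type} (U : Ultrafilter I)

theorem urep_qsmul {A : Type} [AddCommGroup A] [Module ℚ A] (c : ℚ) (x : UG U A) :
    ∀ᶠ i in (U : Filter I), urep U (c • x) i = c • urep U x i := by
  rw [← um_eq, um_urep, um_qsmul, um_urep]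

/-- functoriality of the ultrapower -/
noncomputable def gL {A B : Type} [AddCommGroup A] [AddCommGroup B] [Module ℚ A] [Module ℚ B]
    (f : A →ₗ[ℚ] B) : UG U A →ₗ[ℚ] UG U B :=
  { gH U f.toAddMonoidHom with
    map_smul' := fun c x => by
      change um U (fun i => f (urep U (c • x) i)) = c • um U (fun i => f (urep U x i))
      rw [← um_qsmul, um_eq]
      exact (urep_qsmul U c x).mono fun i hi => by rw [hi, map_smul] }

theorem gL_um {A B : Type} [AddCommGroup A] [AddCommGroup B] [Module ℚ A] [Module ℚ B]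
    (f : A →ₗ[ℚ] B) (g : I → A) : gL U f (um U g) = um U (fun i => f (g i)) :=
  gH_um U f.toAddMonoidHom g

/-- the map on the quotients -/
noncomputable def qB' {K : Type} [Field K] (m : ℕ) : B (m + 2) (GK U K) →+ UG U (B (m + 2) K) :=
  (qB U (R (m + 2) (GK U K)) (R (m + 2) K) (rel_main U m K)).toAddMonoidHom

theorem qB'_bcl {K : Type} [Field K] (m : ℕ) (x : P1 (GK U K)) (p : I → P1 K)
    (hp : P1g U x = ↑p) : qB' U m (bcl (m + 2) x) = um U (fun i => bcl (m + 2) (p i)) := by
  have h1 : (qB U (R (m + 2) (GK U K)) (R (m + 2) K) (rel_main U m K)) (bcl (m + 2) x) =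
      um U (fun i => bcl (m + 2) (p i)) := by
    unfold bcl
    rw [qB_mk, HK_single, hp, sg_coe, gH_um]
    rfl
  exact h1

/-- the map on the exterior powers -/
noncomputable def gE' {K : Type} [Field K] (j : ℕ) :
    (⋀[ℤ]^j (UV (GK U K))) →+ UG U (⋀[ℤ]^j (UV K)) := (gE U (uG U) j).toAddMonoidHom

theorem gE'_apply {K : Type} [Field K] (j : ℕ) (y : Fin j → UV (GK U K))
    (q : Fin j → I → UV K) (hq : ∀ k, uG U (y k) = um U (q k)) :
    gE' U j (exteriorPower.ιMulti ℤ j y) =
      um U (fun i => exteriorPower.ιMulti ℤ j (fun k => q k i)) := by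
  have h := gE_apply U (uG U) j y q hq
  exact h

/-- the map on the tensor products -/
noncomputable def gT' {K : Type} [Field K] (m j : ℕ) :
    (B (m + 2) (GK U K) ⊗[ℤ] (⋀[ℤ]^j (UV (GK U K)))) →+
      UG U (B (m + 2) K ⊗[ℤ] (⋀[ℤ]^j (UV K))) := (gT U (qB' U m) (gE' U j)).toAddMonoidHom

theorem gT'_apply {K : Type} [Field K] (m j : ℕ) (x : P1 (GK U K)) (y : Fin j → UV (GK U K))
    (p : I → P1 K) (q : Fin j → I → UV K) (hp : P1g U x = ↑p) (hq : ∀ k, uG U (y k) = um U (q k)) :
    gT' U m j (bcl (m + 2) x ⊗ₜ[ℤ] exteriorPower.ιMulti ℤ j y) =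
      um U (fun i => bcl (m + 2) (p i) ⊗ₜ[ℤ] exteriorPower.ιMulti ℤ j (fun k => q k i)) := by
  unfold gT'
  rw [LinearMap.toAddMonoidHom_coe]
  exact gT_tmul' U (qB' U m) (gE' U j) _ _ _ _ (qB'_bcl U m x p hp) (gE'_apply U j y q hq)

/-- the terms -/
noncomputable def gTQ {K : Type} [Field K] (m j : ℕ) :
    TQ (GK U K) (m + 2) j →ₗ[ℚ] UG U (TQ K (m + 2) j) :=
  { gQ U (gT' U m j) with
    map_smul' := fun c x => gQ_smul U _ c x }

theorem gTQ_apply {K : Type} [Field K] (m j : ℕ) (z : TQ (GK U K) (m + 2) j) :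
    gTQ U m j z = gQ U (gT' U m j) z := rfl

theorem gTQ_tq {K : Type} [Field K] (m j : ℕ) (x : P1 (GK U K)) (y : Fin j → UV (GK U K))
    (p : I → P1 K) (q : Fin j → I → UV K) (hp : P1g U x = ↑p) (hq : ∀ k, uG U (y k) = um U (q k)) :
    gTQ U m j (tq (GK U K) (m + 2) j x y) =
      um U (fun i => tq K (m + 2) j (p i) (fun k => q k i)) := by
  unfold tq
  rw [gTQ_apply]
  exact gQ_tmul U (gT' U m j) 1 _ _ (gT'_apply U m j x y p q hp hq)

/-- the last terms -/
noncomputable def gLQ {K : Type} [Field K] (j : ℕ) : LQ (GK U K) j →ₗ[ℚ] UG U (LQ K j) :=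
  { gQ U (gE' U j) with
    map_smul' := fun c x => gQ_smul U _ c x }

theorem gLQ_apply {K : Type} [Field K] (j : ℕ) (z : LQ (GK U K) j) :
    gLQ U j z = gQ U (gE' U j) z := rfl

theorem gLQ_lq {K : Type} [Field K] (j : ℕ) (y : Fin j → UV (GK U K))
    (q : Fin j → I → UV K) (hq : ∀ k, uG U (y k) = um U (q k)) :
    gLQ U j (lq (GK U K) j y) = um U (fun i => lq K j (fun k => q k i)) := by
  unfold lq
  rw [gLQ_apply]
  exact gQ_tmul U (gE' U j) 1 _ _ (gE'_apply U j y q hq)

section ext

variable {F F' : Type} [Field F] [Field F'] (e : F' →+* GK U F)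

theorem exists_Phi (m j : ℕ) : ∃ Φ : TQ F' (m + 2) j →ₗ[ℚ] UG U (TQ F (m + 2) j),
    ∀ (x : P1 F') (y : Fin j → UV F') (p : I → P1 F) (q : Fin j → I → UV F),
      P1g U (x.map e) = ↑p → (∀ k, uG U (rmU e (y k)) = um U (q k)) →
      Φ (tq F' (m + 2) j x y) = um U (fun i => tq F (m + 2) j (p i) (fun k => q k i)) := by
  obtain ⟨T, hT⟩ := exists_tm e m j
  refine ⟨gTQ U m j ∘ₗ T, fun x y p q hp hq => ?_⟩
  rw [LinearMap.comp_apply, hT]
  exact gTQ_tq U m j _ _ p q hp hq

theorem exists_PhiL (j : ℕ) : ∃ Φ : LQ F' j →ₗ[ℚ] UG U (LQ F j),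
    ∀ (y : Fin j → UV F') (q : Fin j → I → UV F),
      (∀ k, uG U (rmU e (y k)) = um U (q k)) →
      Φ (lq F' j y) = um U (fun i => lq F j (fun k => q k i)) := by
  obtain ⟨T, hT⟩ := exists_lm e j
  refine ⟨gLQ U j ∘ₗ T, fun y q hq => ?_⟩
  rw [LinearMap.comp_apply, hT]
  exact gLQ_lq U j _ q hq

theorem P1g_some (a : GK U F) : P1g U (some a) = ↑(fun i => some (rep U a i)) := by
  conv_lhs => rw [← mk_rep U a]
  rfl

theorem uG_cl' (a : GK U F) : uG U (cl a) = um U (fun i => cl (rep U a i)) := by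
  conv_lhs => rw [← mk_rep U a]
  exact uG_cl U _

theorem rep_const {A : Type} (a : A) : ∀ᶠ i in (U : Filter I), rep U (↑(fun _ : I => a) : GK U A) i = a :=
  (mk_eq U _ _).1 (mk_rep U _)

theorem rep_ne (a : GK U F) (c : F) (h : a ≠ ↑(fun _ : I => c)) :
    ∀ᶠ i in (U : Filter I), rep U a i ≠ c := by
  refine Ultrafilter.eventually_not.2 fun h1 => h ?_
  rw [← mk_rep U a]
  exact (mk_eq U _ _).2 h1

/-- compatibility with the differentials -/
theorem Phi_d (D : Differentials F) (D' : Differentials F') (m j : ℕ)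
    (Φ : TQ F' (m + 2) (j + 1) →ₗ[ℚ] UG U (TQ F (m + 2) (j + 1)))
    (hΦ : ∀ (x : P1 F') (y : Fin (j + 1) → UV F') (p : I → P1 F) (q : Fin (j + 1) → I → UV F),
      P1g U (x.map e) = ↑p → (∀ k, uG U (rmU e (y k)) = um U (q k)) →
      Φ (tq F' (m + 2) (j + 1) x y) = um U (fun i => tq F (m + 2) (j + 1) (p i) (fun k => q k i)))
    (Φ' : TQ F' (m + 1 + 2) j →ₗ[ℚ] UG U (TQ F (m + 1 + 2) j))
    (hΦ' : ∀ (x : P1 F') (y : Fin j → UV F') (p : I → P1 F) (q : Fin j → I → UV F),
      P1g U (x.map e) = ↑p → (∀ k, uG U (rmU e (y k)) = um U (q k)) →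
      Φ' (tq F' (m + 1 + 2) j x y) = um U (fun i => tq F (m + 1 + 2) j (p i) (fun k => q k i)))
    (v : TQ F' (m + 3) j) : Φ (D'.d m j v) = gL U (D.d m j) (Φ' v) := by
  have h : Φ ∘ₗ (D'.d m j) = (gL U (D.d m j)) ∘ₗ Φ' := by
    apply H39Gon.E2.text
    intro x y
    rw [LinearMap.comp_apply, LinearMap.comp_apply]
    have hy : ∀ k, uG U (rmU e (y k)) = um U (urep U (uG U (rmU e (y k)))) :=
      fun k => (um_urep U _).symm
    cases x with
    | none =>
      rw [D'.d_inf, map_zero]
      rw [hΦ' none y (fun _ => none) _ rfl hy, gL_um, ← um_zero]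
      congr 1
      funext i
      exact (D.d_inf _ _ _).symm
    | some a =>
      have h1 := hΦ' (some a) y _ _ (P1g_some U (e a)) hy
      by_cases ha : a = 0
      · subst ha
        rw [D'.d_zero, map_zero]
        rw [h1, gL_um, ← um_zero, um_eq]
        have h0 := rep_const U (0 : F)
        have h0' : ∀ᶠ i in (U : Filter I), rep U (e 0) i = 0 := by
          rw [map_zero]; exact h0
        filter_upwards [h0'] with i hi
        rw [hi]
        exact (D.d_zero _ _ _).symm
      · rw [D'.d_some _ _ _ _ ha]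
        have hea : e a ≠ ↑(fun _ : I => (0 : F)) := fun h => ha ((map_eq_zero e).1 h)
        rw [hΦ (some a) _ _ (Fin.cons (fun i => cl (rep U (e a) i))
          (fun k => urep U (uG U (rmU e (y k))))) (P1g_some U (e a)) ?_]
        · rw [h1, gL_um, um_eq]
          filter_upwards [rep_ne U (e a) 0 hea] with i hi
          rw [D.d_some _ _ _ _ hi]
          congr 1
          funext k
          refine Fin.cases rfl (fun k => rfl) k
        · intro k
          refine Fin.cases ?_ (fun k => ?_) k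
          · rw [Fin.cons_zero, Fin.cons_zero, rmU_cl]
            exact uG_cl' U (e a)
          · rw [Fin.cons_succ, Fin.cons_succ]
            exact hy k
  exact congrArg (fun f : TQ F' (m + 3) j →ₗ[ℚ] UG U (TQ F (m + 2) (j + 1)) => f v) h

theorem Phi_e (D : Differentials F) (D' : Differentials F') (j : ℕ)
    (Φ : LQ F' (j + 2) →ₗ[ℚ] UG U (LQ F (j + 2)))
    (hΦ : ∀ (y : Fin (j + 2) → UV F') (q : Fin (j + 2) → I → UV F),
      (∀ k, uG U (rmU e (y k)) = um U (q k)) →
      Φ (lq F' (j + 2) y) = um U (fun i => lq F (j + 2) (fun k => q k i)))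
    (Φ' : TQ F' (0 + 2) j →ₗ[ℚ] UG U (TQ F (0 + 2) j))
    (hΦ' : ∀ (x : P1 F') (y : Fin j → UV F') (p : I → P1 F) (q : Fin j → I → UV F),
      P1g U (x.map e) = ↑p → (∀ k, uG U (rmU e (y k)) = um U (q k)) →
      Φ' (tq F' (0 + 2) j x y) = um U (fun i => tq F (0 + 2) j (p i) (fun k => q k i)))
    (v : TQ F' 2 j) : Φ (D'.e j v) = gL U (D.e j) (Φ' v) := by
  have h : Φ ∘ₗ (D'.e j) = (gL U (D.e j)) ∘ₗ Φ' := by
    apply H39Gon.E2.text
    intro x y
    rw [LinearMap.comp_apply, LinearMap.comp_apply]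
    have hy : ∀ k, uG U (rmU e (y k)) = um U (urep U (uG U (rmU e (y k)))) :=
      fun k => (um_urep U _).symm
    cases x with
    | none =>
      rw [D'.e_inf, map_zero]
      rw [hΦ' none y (fun _ => none) _ rfl hy, gL_um, ← um_zero]
      congr 1
      funext i
      exact (D.e_inf _ _).symm
    | some a =>
      have h1 := hΦ' (some a) y _ _ (P1g_some U (e a)) hy
      by_cases ha : a = 0
      · subst ha
        rw [D'.e_zero, map_zero]
        rw [h1, gL_um, ← um_zero, um_eq]
        have h0 := rep_const U (0 : F)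
        have h0' : ∀ᶠ i in (U : Filter I), rep U (e 0) i = 0 := by
          rw [map_zero]; exact h0
        filter_upwards [h0'] with i hi
        rw [hi]
        exact (D.e_zero _ _).symm
      · by_cases ha1 : a = 1
        · subst ha1
          rw [D'.e_one, map_zero]
          rw [h1, gL_um, ← um_zero, um_eq]
          have h0 := rep_const U (1 : F)
          have h0' : ∀ᶠ i in (U : Filter I), rep U (e 1) i = 1 := by
            rw [map_one]; exact h0
          filter_upwards [h0'] with i hi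
          rw [hi]
          exact (D.e_one _ _).symm
        · rw [D'.e_some _ _ _ ha ha1]
          have hea : e a ≠ ↑(fun _ : I => (0 : F)) := fun h => ha ((map_eq_zero e).1 h)
          have hea1 : e a ≠ ↑(fun _ : I => (1 : F)) := fun h => ha1 (e.injective (by
            rw [map_one]; exact h))
          rw [hΦ _ (Fin.cons (fun i => cl (1 - rep U (e a) i)) (Fin.cons (fun i => cl (rep U (e a) i))
            (fun k => urep U (uG U (rmU e (y k)))))) ?_]
          · rw [h1, gL_um, um_eq]
            filter_upwards [rep_ne U (e a) 0 hea, rep_ne U (e a) 1 hea1] with i hi hi1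
            refine Eq.trans ?_ (D.e_some _ _ _ hi hi1).symm
            congr 1
            funext k
            refine Fin.cases rfl (fun k => Fin.cases rfl (fun k => rfl) k) k
          · intro k
            refine Fin.cases ?_ (fun k => Fin.cases ?_ (fun k => ?_) k) k
            · rw [Fin.cons_zero, Fin.cons_zero, rmU_cl, map_sub, map_one]
              have e1 : (1 : GK U F) - e a = ↑(fun i => 1 - rep U (e a) i) := by
                conv_lhs => rw [← mk_rep U (e a)]
                rfl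
              rw [e1]
              exact uG_cl U _
            · rw [Fin.cons_succ, Fin.cons_succ, Fin.cons_zero, Fin.cons_zero, rmU_cl]
              exact uG_cl' U (e a)
            · rw [Fin.cons_succ, Fin.cons_succ, Fin.cons_succ, Fin.cons_succ]
              exact hy k
  exact congrArg (fun f : TQ F' 2 j →ₗ[ℚ] UG U (LQ F (j + 2)) => f v) h

end ext

end Pool.Agent.X321.UP
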